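import Pool.Agent.W353.EF.Defs

/-! The two extreme Young subfields. -/

set_option autoImplicit false

namespace Pool.Agent.TH545.Young

open Pool.Agent.W353.EF IntermediateField

variable (K F : Type) [Field K] [Field F] [Algebra K F]

theorem young_top [CharZero K] : youngField K F ⊤ = ⊥ := by
  unfold youngField
  refine le_antisymm (fun x hx => ?_) bot_le
  have : IsGalois K (AlgebraicClosure K) := inferInstance
  rw [← InfiniteGalois.fixedField_bot (k := K) (K := AlgebraicClosure K)]
  intro g
  exact hx ⟨g.1, fun _ => trivial⟩

theorem young_bot [CharZero K] : youngField K F ⊥ = closure K F := by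
  have h : youngField K F ⊥ = IntermediateField.fixedField (closure K F).fixingSubgroup := by
    unfold youngField
    congr 1
    ext σ
    constructor
    · intro hσ
      rw [IntermediateField.mem_fixingSubgroup_iff]
      intro x hx
      have hle : closure K F ≤ IntermediateField.fixedField (Subgroup.zpowers σ) := by
        refine iSup_le fun i => ?_
        rintro _ ⟨y, rfl⟩
        rintro ⟨g, hg⟩
        obtain ⟨k, rfl⟩ := Subgroup.mem_zpowers_iff.1 hg
        have h0 : ∀ i, perm K F σ i = i := fun i => Eq.symm (hσ i)
        have h1 : ∀ k : ℤ, perm K F (σ ^ k) i = i := by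
          intro k
          rw [map_zpow]
          have : perm K F σ = 1 := Equiv.ext h0
          rw [this, one_zpow]
          rfl
        have h2 := congrArg (fun j : F →ₐ[K] AlgebraicClosure K => j y) (h1 k)
        exact h2
      exact hle hx ⟨σ, Subgroup.mem_zpowers σ⟩
    · intro hσ i
      rw [IntermediateField.mem_fixingSubgroup_iff] at hσ
      refine Eq.symm (AlgHom.ext fun y => ?_)
      exact hσ (i y) (le_iSup (fun i : F →ₐ[K] AlgebraicClosure K => i.fieldRange) i ⟨y, rfl⟩)
  rw [h, InfiniteGalois.fixedField_fixingSubgroup]

end Pool.Agent.TH545.Young
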