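import Mathlib

/-!
# A uniformly pathwise connected continuum that is not uniformly arcwise connected

The example is the plane continuum made of the spokes `{(r, r/n) : 0 ≤ r ≤ 1}`, `n ≥ 1`, the
oscillating rim `{(1 + sin² (π τ)) • (1, 1/τ) : τ ≥ 1}`, which meets the `n`-th spoke in its end
`v n = (1, 1/n)`, and the limit segment `[0,2] × {0}`. The hub is `a = (0, 0)` and `b = v 1`.
Every arc from `a` to `b` through `v n` has to run along the rim from `v n` to `v 1`.
-/

set_option autoImplicit false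

namespace Pool.Agent.TH545.Wheel

open Set Topology unitInterval Filter

/-- `{0} ∪ {1/n : n ≥ 1}` -/
def K : Set ℝ := insert 0 (range fun n : ℕ => ((n : ℝ) + 1)⁻¹)

theorem K_compact : IsCompact K := by
  have h : Tendsto (fun n : ℕ => ((n : ℝ) + 1)⁻¹) atTop (𝓝 0) := by
    simpa [one_div] using (tendsto_one_div_add_atTop_nhds_zero_nat (𝕜 := ℝ))
  exact h.isCompact_insert_range

instance : CompactSpace K := isCompact_iff_compactSpace.mp K_compact

theorem K_nonneg {κ : ℝ} (h : κ ∈ K) : 0 ≤ κ := by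
  rcases h with rfl | ⟨n, rfl⟩
  · exact le_rfl
  · positivity

theorem inv_mem {n : ℕ} (hn : 1 ≤ n) : ((n : ℝ))⁻¹ ∈ K := by
  refine Or.inr ⟨n - 1, ?_⟩
  have : ((n - 1 : ℕ) : ℝ) + 1 = n := by
    rw [Nat.cast_sub hn]; push_cast; ring
  simp only [this]

/-- first half of the time: run along the spoke -/
noncomputable def al (s : I) : ℝ := min (2 * (s : ℝ)) 1
/-- second half of the time: run along the rim -/
noncomputable def be (s : I) : ℝ := max (2 * (s : ℝ) - 1) 0

theorem al_cont : Continuous al := by unfold al; fun_prop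
theorem be_cont : Continuous be := by unfold be; fun_prop
theorem be_nonneg (s : I) : 0 ≤ be s := le_max_right _ _
theorem be_le (s : I) : be s ≤ 1 := by
  have := s.2.2
  exact max_le (by linarith) zero_le_one
theorem al_nonneg (s : I) : 0 ≤ al s := by
  have := s.2.1
  exact le_min (by linarith) zero_le_one
theorem al_pos {s : I} (h : 0 < s) : 0 < al s := by
  have : (0:ℝ) < s := h
  exact lt_min (by linarith) zero_lt_one
theorem al_eq_one {s : I} (h : 0 < be s) : al s = 1 := by
  unfold al be at *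
  apply min_eq_right
  rcases lt_max_iff.mp h with h | h
  · linarith
  · exact absurd h (lt_irrefl _)
theorem al_eq_or (s : I) : be s = 0 ∨ al s = 1 := by
  rcases (be_nonneg s).lt_or_eq with h | h
  · exact Or.inr (al_eq_one h)
  · exact Or.inl h.symm

/-- the parametrization -/
noncomputable def F (κ : ℝ) (s : I) : ℝ × ℝ :=
  (al s + Real.sin (Real.pi * be s) ^ 2,
    (al s + Real.sin (Real.pi * be s) ^ 2) * (κ / (1 + κ * be s)))

theorem F_cont : Continuous fun p : K × I => F p.1 p.2 := by
  unfold F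
  have h1 : Continuous fun p : K × I => al p.2 + Real.sin (Real.pi * be p.2) ^ 2 := by
    have := al_cont
    have := be_cont
    fun_prop
  refine h1.prodMk (h1.mul ?_)
  have hb := be_cont
  have hk : Continuous fun p : K × I => ((p.1 : K) : ℝ) := by fun_prop
  refine hk.div (continuous_const.add (hk.mul (hb.comp continuous_snd))) ?_
  intro p
  have h2 := K_nonneg p.1.2
  have h3 := be_nonneg p.2
  positivity

/-- the continuum -/
def X : Set (ℝ × ℝ) := range fun p : K × I => F p.1 p.2

theorem F_mem {κ : ℝ} (h : κ ∈ K) (s : I) : F κ s ∈ X := ⟨(⟨κ, h⟩, s), rfl⟩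

instance : CompactSpace X := isCompact_iff_compactSpace.mp (isCompact_range F_cont)

theorem F_zero (κ : ℝ) : F κ 0 = (0, 0) := by
  simp [F, al, be]

/-- the hub -/
noncomputable def a : X := ⟨(0, 0), by rw [← F_zero 0]; exact F_mem (Or.inl rfl) 0⟩

/-- the basic paths -/
noncomputable def γ (κ : K) : Path a (⟨F κ 1, F_mem κ.2 1⟩ : X) where
  toFun s := ⟨F κ s, F_mem κ.2 s⟩
  continuous_toFun := by
    have : Continuous fun s : I => F κ s := F_cont.comp (Continuous.prodMk_right κ)
    exact this.subtype_mk _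
  source' := by
    apply Subtype.ext
    exact F_zero κ
  target' := rfl

theorem γ_cont : Continuous ↿γ := by
  refine Continuous.subtype_mk ?_ _
  exact F_cont

/-- the path from the hub to a given point -/
theorem joined (x : X) : Nonempty (Path a x) := by
  obtain ⟨x, ⟨κ, s⟩, rfl⟩ := x
  have h : Path a (γ κ s) :=
    { toFun := fun t => γ κ (s * t)
      continuous_toFun := by fun_prop
      source' := by rw [mul_zero]; exact (γ κ).source
      target' := by rw [mul_one] }
  exact ⟨h⟩

instance : ConnectedSpace X := by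
  have : PathConnectedSpace X := by
    rw [pathConnectedSpace_iff_eq]
    refine ⟨a, ?_⟩
    ext x
    simp only [mem_pathComponent_iff, mem_univ, iff_true]
    obtain ⟨p⟩ := joined x
    exact ⟨p⟩
  infer_instance

/-- a uniform collection of paths -/
def Uniform {Y : Type} [MetricSpace Y] {x y : Y} (P : Set (Path x y)) : Prop :=
  ∀ ε : ℝ, ε > 0 → ∃ n : ℕ, ∀ p ∈ P, ∃ t : Fin (n + 1) → unitInterval,
    t 0 = 0 ∧ t (Fin.last n) = 1 ∧ StrictMono t ∧
    ∀ i : Fin n, Metric.diam (⇑p '' Set.Icc (t i.castSucc) (t i.succ)) ≤ ε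

/-- A compact continuous family of paths is uniform. -/
theorem uniform_of_compact {ι Y : Type} [MetricSpace ι] [CompactSpace ι] [MetricSpace Y] {x y : Y}
    (q : ι → Path x y) (hq : Continuous ↿q) : Uniform (range q) := by
  intro ε hε
  have hu : UniformContinuous (↿q : ι × I → Y) :=
    CompactSpace.uniformContinuous_of_continuous hq
  obtain ⟨δ, hδ, h⟩ := Metric.uniformContinuous_iff.mp hu ε hε
  obtain ⟨n, hn⟩ := exists_nat_gt (1 / δ)
  have hn0 : (0:ℝ) < n := lt_trans (by positivity) hn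
  have hn' : (1:ℝ) / n < δ := by
    rw [div_lt_iff₀ hn0]
    rw [div_lt_iff₀ hδ] at hn
    linarith
  refine ⟨n, ?_⟩
  rintro _ ⟨i, rfl⟩
  have hle : ∀ k : Fin (n + 1), ((k : ℕ) : ℝ) ≤ n := by
    intro k
    exact_mod_cast Nat.lt_succ_iff.mp k.2
  refine ⟨fun k => ⟨(k : ℕ) / n, by positivity, (div_le_one hn0).mpr (hle k)⟩, ?_, ?_, ?_, ?_⟩
  · apply Subtype.ext; simp
  · apply Subtype.ext; simp [hn0.ne']
  · intro k l hkl
    show ((k : ℕ) : ℝ) / n < (l : ℕ) / n
    have : ((k : ℕ) : ℝ) < (l : ℕ) := by exact_mod_cast hkl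
    gcongr
  · intro k
    apply Metric.diam_le_of_forall_dist_le hε.le
    rintro _ ⟨s, hs, rfl⟩ _ ⟨s', hs', rfl⟩
    apply le_of_lt
    apply h (a := (i, s)) (b := (i, s'))
    rw [Prod.dist_eq, dist_self, max_lt_iff]
    refine ⟨hδ, ?_⟩
    have h1 : ((k : ℕ) : ℝ) / n ≤ (s : ℝ) := hs.1
    have h2 : (s : ℝ) ≤ (((k : ℕ) + 1 : ℕ) : ℝ) / n := hs.2
    have h3 : ((k : ℕ) : ℝ) / n ≤ (s' : ℝ) := hs'.1
    have h4 : (s' : ℝ) ≤ (((k : ℕ) + 1 : ℕ) : ℝ) / n := hs'.2
    have h5 : (((k : ℕ) + 1 : ℕ) : ℝ) / n = ((k : ℕ) : ℝ) / n + 1 / n := by push_cast; ring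
    rw [Subtype.dist_eq, Real.dist_eq, abs_lt]
    constructor <;> linarith

/-- The continuum is uniformly pathwise connected. -/
theorem uniform_paths (x y : X) : ∃ P : Set (Path x y), Uniform P ∧
    (⋃ p ∈ P, range ⇑p) = univ := by
  obtain ⟨px⟩ := joined x
  obtain ⟨py⟩ := joined y
  let q : K → Path x y := fun κ => (px.symm.trans ((γ κ).trans (γ κ).symm)).trans py
  have hq : Continuous ↿q := by
    apply Path.trans_continuous_family
    · apply Path.trans_continuous_family
      · exact px.symm.continuous.comp continuous_snd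
      · apply Path.trans_continuous_family
        · exact γ_cont
        · exact Path.symm_continuous_family _ γ_cont
    · exact py.continuous.comp continuous_snd
  refine ⟨range q, uniform_of_compact q hq, ?_⟩
  rw [eq_univ_iff_forall]
  rintro ⟨z, ⟨κ, s⟩, rfl⟩
  simp only [mem_iUnion]
  refine ⟨q κ, ⟨κ, rfl⟩, ?_⟩
  simp only [q, Path.trans_range]
  exact Or.inl (Or.inr (Or.inl ⟨s, rfl⟩))

theorem pos_of_ne {q : X} (h : q ≠ a) : 0 < (q : ℝ × ℝ).1 := by
  obtain ⟨q, ⟨κ, s⟩, rfl⟩ := q
  have hs : 0 < s := by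
    rcases (unitInterval.nonneg' (t := s)).lt_or_eq with h1 | h1
    · exact h1
    · exfalso
      apply h
      apply Subtype.ext
      subst h1
      exact F_zero κ
  have := al_pos hs
  simp only [F]
  positivity

/-- the slope -/
noncomputable def sl (q : X) : ℝ := (q : ℝ × ℝ).2 / (q : ℝ × ℝ).1

theorem inv_div_one_add {c β : ℝ} (hc : 0 < c) : c⁻¹ / (1 + c⁻¹ * β) = (c + β)⁻¹ := by
  field_simp

/-- the abscissa of a point with a given generic slope -/
theorem abscissa {q : X} (h : q ≠ a) {n : ℕ} {θ : ℝ} (h0 : 0 < θ) (h1 : θ < 1)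
    (hs : sl q = ((n : ℝ) + θ)⁻¹) : (q : ℝ × ℝ).1 = 1 + Real.sin (Real.pi * θ) ^ 2 := by
  have hpos := pos_of_ne h
  obtain ⟨q, ⟨κ, s⟩, rfl⟩ := q
  have hsl : (κ : ℝ) / (1 + κ * be s) = ((n : ℝ) + θ)⁻¹ := by
    rw [← hs]
    simp only [sl, F] at hpos ⊢
    rw [mul_div_cancel_left₀ _ hpos.ne']
  have hb := be_nonneg s
  have hb1 := be_le s
  have hn : (0:ℝ) ≤ n := Nat.cast_nonneg n
  obtain ⟨κ, hκ⟩ := κ
  simp only at hsl
  rcases hκ with rfl | ⟨m, rfl⟩
  · exfalso
    rw [zero_div] at hsl
    have : (0:ℝ) < ((n : ℝ) + θ)⁻¹ := by positivity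
    linarith
  · have hm : (0:ℝ) < (m : ℝ) + 1 := by positivity
    have e1 : (m : ℝ) + 1 + be s = n + θ := by
      rw [inv_div_one_add hm] at hsl
      exact inv_injective hsl
    have e2 : m + 1 = n := by
      have h3 : (m : ℝ) + 1 < n + 1 := by linarith
      have h4 : (n : ℝ) < m + 1 + 1 := by linarith
      have h5 : m + 1 < n + 1 := by exact_mod_cast h3
      have h6 : n < m + 1 + 1 := by exact_mod_cast h4
      omega
    have e3 : be s = θ := by
      have : (n : ℝ) = m + 1 := by rw [← e2]; push_cast; ring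
      linarith
    have e4 : al s = 1 := al_eq_one (by rw [e3]; exact h0)
    simp only [F, e3, e4]

/-- the point of the rim at parameter `τ` -/
noncomputable def rim (τ : ℝ) : ℝ × ℝ :=
  (1 + Real.sin (Real.pi * τ) ^ 2, (1 + Real.sin (Real.pi * τ) ^ 2) * τ⁻¹)

theorem rim_mem {τ : ℝ} (h : 1 ≤ τ) : rim τ ∈ X := by
  have hm : 1 ≤ ⌊τ⌋₊ := Nat.le_floor (by simpa using h)
  have hm0 : (0:ℝ) < ⌊τ⌋₊ := by exact_mod_cast hm
  have h1 : (⌊τ⌋₊ : ℝ) ≤ τ := Nat.floor_le (by linarith)
  have h2 : τ < ⌊τ⌋₊ + 1 := Nat.lt_floor_add_one τ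
  let s : I := ⟨(1 + (τ - ⌊τ⌋₊)) / 2, by constructor <;> linarith⟩
  have hbe : be s = τ - ⌊τ⌋₊ := by
    simp only [be, s]
    rw [max_eq_left] <;> linarith
  have hal : al s = 1 := by
    simp only [al, s]
    rw [min_eq_right]; linarith
  have hsin : Real.sin (Real.pi * be s) ^ 2 = Real.sin (Real.pi * τ) ^ 2 := by
    rw [hbe, mul_sub, mul_comm Real.pi (⌊τ⌋₊ : ℝ), Real.sin_sub_nat_mul_pi, mul_pow, ← pow_mul,
      mul_comm ⌊τ⌋₊ 2, pow_mul]
    simp
  have heq : rim τ = F ((⌊τ⌋₊ : ℝ))⁻¹ s := by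
    have h3 : ((⌊τ⌋₊ : ℝ))⁻¹ / (1 + ((⌊τ⌋₊ : ℝ))⁻¹ * be s) = τ⁻¹ := by
      rw [inv_div_one_add hm0, hbe, add_sub_cancel]
    simp only [F, rim, hal, hsin, h3]
  rw [heq]
  exact F_mem (inv_mem hm) s

theorem spoke_mem {n : ℕ} (hn : 1 ≤ n) {r : ℝ} (h0 : 0 ≤ r) (h1 : r ≤ 1) :
    ((r, r * ((n : ℝ))⁻¹) : ℝ × ℝ) ∈ X := by
  let s : I := ⟨r / 2, by constructor <;> linarith⟩
  have hbe : be s = 0 := by
    simp only [be, s]
    rw [max_eq_right]; linarith
  have hal : al s = r := by
    simp only [al, s]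
    rw [min_eq_left] <;> linarith
  have heq : ((r, r * ((n : ℝ))⁻¹) : ℝ × ℝ) = F ((n : ℝ))⁻¹ s := by
    simp [F, hbe, hal]
  rw [heq]
  exact F_mem (inv_mem hn) s

/-- the arc from the hub along the `n`-th spoke and the rim -/
noncomputable def arcFun (n : ℕ) (t : I) : ℝ × ℝ :=
  (al t + Real.sin (Real.pi * (n - (n - 1) * be t)) ^ 2,
    (al t + Real.sin (Real.pi * (n - (n - 1) * be t)) ^ 2) * ((n : ℝ) - (n - 1) * be t)⁻¹)

theorem one_le_tau {n : ℕ} (hn : 1 ≤ n) (t : I) : (1:ℝ) ≤ (n : ℝ) - (n - 1) * be t := by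
  have h1 : (1:ℝ) ≤ n := by exact_mod_cast hn
  have := be_le t
  nlinarith

theorem sin_nat_mul_pi' (n : ℕ) : Real.sin (Real.pi * n) = 0 := by
  rw [mul_comm]; exact Real.sin_nat_mul_pi n

theorem arcFun_mem {n : ℕ} (hn : 1 ≤ n) (t : I) : arcFun n t ∈ X := by
  rcases al_eq_or t with h | h
  · have : arcFun n t = (al t, al t * ((n : ℝ))⁻¹) := by
      simp [arcFun, h, sin_nat_mul_pi']
    rw [this]
    refine spoke_mem hn (al_nonneg t) (min_le_right _ _)
  · have : arcFun n t = rim ((n : ℝ) - (n - 1) * be t) := by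
      simp [arcFun, rim, h]
    rw [this]
    exact rim_mem (one_le_tau hn t)

theorem arcFun_cont {n : ℕ} (hn : 1 ≤ n) : Continuous (arcFun n) := by
  have ha := al_cont
  have hb := be_cont
  unfold arcFun
  have h1 : Continuous fun t : I => al t + Real.sin (Real.pi * (n - (n - 1) * be t)) ^ 2 := by
    fun_prop
  refine h1.prodMk (h1.mul (Continuous.inv₀ (by fun_prop) ?_))
  intro t
  have := one_le_tau hn t
  linarith

theorem arcFun_inj {n : ℕ} (hn : 2 ≤ n) : Function.Injective (arcFun n) := by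
  have hn1 : 1 ≤ n := by omega
  have hn2 : (1:ℝ) < n := by exact_mod_cast hn
  intro s t hst
  -- positivity of the first coordinate
  have hfst : ∀ u : I, 0 < u → 0 < al u + Real.sin (Real.pi * (n - (n - 1) * be u)) ^ 2 := by
    intro u hu
    have := al_pos hu
    positivity
  have h1 : al s + Real.sin (Real.pi * (n - (n - 1) * be s)) ^ 2 =
      al t + Real.sin (Real.pi * (n - (n - 1) * be t)) ^ 2 := congrArg Prod.fst hst
  have h2 : (al s + Real.sin (Real.pi * (n - (n - 1) * be s)) ^ 2) *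
      ((n : ℝ) - (n - 1) * be s)⁻¹ = (al t + Real.sin (Real.pi * (n - (n - 1) * be t)) ^ 2) *
      ((n : ℝ) - (n - 1) * be t)⁻¹ := congrArg Prod.snd hst
  have hz : al 0 + Real.sin (Real.pi * (n - (n - 1) * be 0)) ^ 2 = 0 := by
    simp [al, be, sin_nat_mul_pi']
  rcases (unitInterval.nonneg' (t := s)).lt_or_eq with hs | hs
  · rcases (unitInterval.nonneg' (t := t)).lt_or_eq with ht | ht
    · have hs' := hfst s hs
      rw [← h1] at h2
      have h3 := mul_left_cancel₀ hs'.ne' h2
      have h4 : (n : ℝ) - (n - 1) * be s = n - (n - 1) * be t := inv_injective h3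
      have h5 : be s = be t := by
        have h6 : ((n:ℝ) - 1) * be s = (n - 1) * be t := by linarith
        exact mul_left_cancel₀ (by linarith) h6
      rw [h5] at h1
      have h6 : al s = al t := by linarith
      apply Subtype.ext
      rcases (be_nonneg s).lt_or_eq with h7 | h7
      · have h8 : be s = 2 * (s : ℝ) - 1 := by
          unfold be at h7 ⊢
          apply max_eq_left
          rcases lt_max_iff.mp h7 with h | h
          · exact h.le
          · exact absurd h (lt_irrefl _)
        have h9 : be t = 2 * (t : ℝ) - 1 := by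
          rw [h5] at h7
          unfold be at h7 ⊢
          apply max_eq_left
          rcases lt_max_iff.mp h7 with h | h
          · exact h.le
          · exact absurd h (lt_irrefl _)
        linarith
      · have h8 : al s = 2 * (s : ℝ) := by
          unfold be at h7
          unfold al
          apply min_eq_left
          have := le_max_left (2 * (s:ℝ) - 1) 0
          linarith
        have h9 : al t = 2 * (t : ℝ) := by
          rw [h5] at h7
          unfold be at h7
          unfold al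
          apply min_eq_left
          have := le_max_left (2 * (t:ℝ) - 1) 0
          linarith
        linarith
    · exfalso
      subst ht
      have := hfst s hs
      linarith
  · rcases (unitInterval.nonneg' (t := t)).lt_or_eq with ht | ht
    · exfalso
      subst hs
      have := hfst t ht
      linarith
    · rw [← hs, ← ht]

/-- the end of the `n`-th spoke -/
theorem v_mem {n : ℕ} (hn : 1 ≤ n) : ((1, ((n : ℝ))⁻¹) : ℝ × ℝ) ∈ X := by
  have := spoke_mem hn zero_le_one le_rfl
  simpa using this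

/-- the second end point -/
noncomputable def b : X := ⟨(1, 1), by simpa using v_mem (n := 1) le_rfl⟩

noncomputable def arc {n : ℕ} (hn : 2 ≤ n) : Path a b where
  toFun t := ⟨arcFun n t, arcFun_mem (by omega) t⟩
  continuous_toFun := (arcFun_cont (by omega)).subtype_mk _
  source' := by
    apply Subtype.ext
    simp [arcFun, al, be, a, sin_nat_mul_pi']
  target' := by
    apply Subtype.ext
    have h : (n : ℝ) - (n - 1) = 1 := by ring
    simp only [arcFun, al, be, b]
    norm_num [h]

theorem v_on_arc {n : ℕ} (hn : 2 ≤ n) : (⟨(1, ((n : ℝ))⁻¹), v_mem (by omega)⟩ : X) ∈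
    ⋃ (q : Path a b) (_ : Function.Injective ⇑q), range ⇑q := by
  simp only [mem_iUnion]
  refine ⟨arc hn, ?_, ⟨1 / 2, by norm_num, by norm_num⟩, ?_⟩
  · intro s t hst
    exact arcFun_inj hn (congrArg Subtype.val hst)
  · apply Subtype.ext
    show arcFun n _ = _
    simp [arcFun, al, be, sin_nat_mul_pi']

/-- every time lies in an interval of a partition -/
theorem exists_piece {N : ℕ} (t : Fin (N + 1) → I) (h0 : t 0 = 0) (h1 : t (Fin.last N) = 1)
    (s : I) : ∃ i : Fin N, s ∈ Icc (t i.castSucc) (t i.succ) := by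
  have key : ∀ k : Fin (N + 1), t k ≤ s ∨ ∃ i : Fin N, s ∈ Icc (t i.castSucc) (t i.succ) := by
    intro k
    induction k using Fin.induction with
    | zero => left; rw [h0]; exact unitInterval.nonneg'
    | succ k ih =>
      rcases ih with ih | ih
      · by_cases hk : t k.succ ≤ s
        · exact Or.inl hk
        · exact Or.inr ⟨k, ih, (not_le.mp hk).le⟩
      · exact Or.inr ih
  rcases key (Fin.last N) with h | h
  · cases N with
    | zero =>
      exfalso
      have : (0 : I) = 1 := h0.symm.trans h1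
      exact zero_ne_one this
    | succ M =>
      have hs : s = 1 := le_antisymm unitInterval.le_one' (h1 ▸ h)
      refine ⟨Fin.last M, ?_, ?_⟩
      · rw [hs]; exact unitInterval.le_one'
      · rw [Fin.succ_last, h1]; exact unitInterval.le_one'
  · exact h

/-- The continuum is not uniformly arcwise connected. -/
theorem not_uniform (P : Set (Path a b)) (hinj : ∀ p ∈ P, Function.Injective ⇑p)
    (hu : Uniform P)
    (hcov : (⋃ p ∈ P, range ⇑p) = ⋃ (q : Path a b) (_ : Function.Injective ⇑q), range ⇑q) :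
    False := by
  obtain ⟨N, hN⟩ := hu (1 / 4) (by norm_num)
  have hn : 2 ≤ N + 2 := by omega
  have hv := v_on_arc hn
  rw [← hcov] at hv
  simp only [mem_iUnion] at hv
  obtain ⟨p, hp, t₀, ht₀⟩ := hv
  obtain ⟨t, h0, h1, -, hd⟩ := hN p hp
  have ht₀0 : 0 < t₀ := by
    rcases (unitInterval.nonneg' (t := t₀)).lt_or_eq with h | h
    · exact h
    · exfalso
      rw [← h, p.source] at ht₀
      have := congrArg (fun q : X => (q : ℝ × ℝ).1) ht₀
      simp [a] at this
  have hne : ∀ s : I, t₀ ≤ s → p s ≠ a := by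
    intro s hs he
    have := hinj p hp (he.trans p.source.symm)
    rw [this] at hs
    exact absurd hs (not_le.mpr ht₀0)
  have hcont : ContinuousOn (fun s : I => sl (p s)) (Icc t₀ 1) := by
    have h1 : Continuous fun s : I => ((p s : X) : ℝ × ℝ).1 := by fun_prop
    have h2 : Continuous fun s : I => ((p s : X) : ℝ × ℝ).2 := by fun_prop
    refine h2.continuousOn.div h1.continuousOn ?_
    intro s hs
    exact (pos_of_ne (hne s hs.1)).ne'
  have hsl0 : sl (p t₀) = ((N : ℝ) + 2)⁻¹ := by
    rw [ht₀]; simp [sl]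
  have hsl1 : sl (p 1) = 1 := by
    rw [p.target]; simp [sl, b]
  -- the times at which the far points are visited
  have hfar : ∀ j : Fin (N + 1), ∃ s : I, s ∈ Icc t₀ 1 ∧
      sl (p s) = (((j : ℕ) + 1 : ℕ) + (1 / 2 : ℝ))⁻¹ := by
    intro j
    have hj : ((j : ℕ) : ℝ) ≤ N := by exact_mod_cast Nat.lt_succ_iff.mp j.2
    have hj0 : (0:ℝ) ≤ ((j : ℕ) : ℝ) := Nat.cast_nonneg _
    have := intermediate_value_Icc (unitInterval.le_one' (t := t₀)) hcont
    have hm : (((j : ℕ) + 1 : ℕ) + (1 / 2 : ℝ))⁻¹ ∈ Icc (sl (p t₀)) (sl (p 1)) := by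
      rw [hsl0, hsl1]
      push_cast
      constructor
      · apply inv_anti₀ (by positivity)
        linarith
      · apply inv_le_one_of_one_le₀
        linarith
    obtain ⟨s, hs, hs'⟩ := this hm
    exact ⟨s, hs, hs'⟩
  choose s hs hss using hfar
  have hpc : ∀ j : Fin (N + 1), ∃ i : Fin N, s j ∈ Icc (t i.castSucc) (t i.succ) :=
    fun j => exists_piece t h0 h1 (s j)
  choose i hi using hpc
  -- two far points in one piece
  have key : ∀ j k : Fin (N + 1), j < k → i j ≠ i k := by
    intro j k hjk hij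
    have hjk' : ((j : ℕ) : ℝ) + 1 ≤ ((k : ℕ) : ℝ) := by exact_mod_cast hjk
    have hj0 : (0:ℝ) ≤ ((j : ℕ) : ℝ) := Nat.cast_nonneg _
    have hsub : uIcc (s k) (s j) ⊆ Icc t₀ 1 := by
      rw [uIcc]
      apply Icc_subset_Icc (le_inf (hs k).1 (hs j).1) unitInterval.le_one'
    have hsub2 : uIcc (s k) (s j) ⊆ Icc (t (i j).castSucc) (t (i j).succ) := by
      have := hi k
      rw [← hij] at this
      rw [uIcc]
      exact Icc_subset_Icc (le_inf this.1 (hi j).1) (sup_le this.2 (hi j).2)
    have hiv := intermediate_value_uIcc (hcont.mono hsub)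
    have hm : (((j : ℕ) + 1 : ℕ) + (3 / 4 : ℝ))⁻¹ ∈ uIcc (sl (p (s k))) (sl (p (s j))) := by
      rw [hss j, hss k, uIcc_of_le]
      · push_cast
        constructor
        · apply inv_anti₀ (by positivity)
          linarith
        · apply inv_anti₀ (by positivity)
          linarith
      · push_cast
        apply inv_anti₀ (by positivity)
        linarith
    obtain ⟨w, hw, hw'⟩ := hiv hm
    have hw'' : sl (p w) = (((j : ℕ) + 1 : ℕ) + (3 / 4 : ℝ))⁻¹ := hw'
    have e1 := abscissa (hne w (hsub hw).1) (by norm_num) (by norm_num) hw''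
    have e2 := abscissa (hne (s j) (hs j).1) (by norm_num) (by norm_num) (hss j)
    have hdist : dist (p w) (p (s j)) ≤ 1 / 4 := by
      refine (Metric.dist_le_diam_of_mem (isCompact_Icc.image p.continuous).isBounded
        (mem_image_of_mem _ (hsub2 hw)) (mem_image_of_mem _ (hi j))).trans (hd (i j))
    have hdist2 : |((p w : X) : ℝ × ℝ).1 - ((p (s j) : X) : ℝ × ℝ).1| ≤ 1 / 4 := by
      refine le_trans ?_ hdist
      rw [Subtype.dist_eq, Prod.dist_eq]
      exact le_max_left _ _
    have s1 : Real.sin (Real.pi * (1 / 2)) ^ 2 = 1 := by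
      rw [mul_one_div, Real.sin_pi_div_two]; norm_num
    have s2 : Real.sin (Real.pi * (3 / 4)) ^ 2 = 1 / 2 := by
      have : Real.pi * (3 / 4) = Real.pi - Real.pi / 4 := by ring
      rw [this, Real.sin_pi_sub, Real.sin_pi_div_four, div_pow, Real.sq_sqrt (by norm_num)]
      norm_num
    rw [e1, e2, s1, s2, abs_le] at hdist2
    norm_num at hdist2
  have hinj' : Function.Injective i := by
    intro j k hjk
    rcases lt_trichotomy j k with h | h | h
    · exact absurd hjk (key j k h)
    · exact h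
    · exact absurd hjk.symm (key k j h)
  have := Fintype.card_le_of_injective i hinj'
  simp at this

end Pool.Agent.TH545.Wheel
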