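import Pool.Agent.TH545.K5

/-!
# The space `K₅`, and monotone maps of plane continua

`K5` is the union of the ten segments joining the five basis vectors of `ℝ⁵`.  It is a locally
connected continuum in which every nondegenerate subcontinuum has interior, and it is not the
image of a compact subset of the plane under a continuous surjection with connected fibres.
-/

set_option autoImplicit false

namespace Pool.Agent.TH545

open Set Topology Metric

/-- A finite union of closed convex sets is locally connected. -/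
theorem locConn_of_finite_convex {ι E : Type*} [Finite ι] [NormedAddCommGroup E]
    [NormedSpace ℝ E] (C : ι → Set E) (hC : ∀ i, Convex ℝ (C i)) (hcl : ∀ i, IsClosed (C i)) :
    LocallyConnectedSpace ↥(⋃ i, C i) := by
  rw [locallyConnectedSpace_iff_connected_subsets]
  intro x U hU
  obtain ⟨u, hu, huU⟩ := mem_nhds_subtype _ _ _ |>.mp hU
  have h1 : (u ∩ ⋂ i : {i // (x : E) ∉ C i}, (C i)ᶜ) ∈ 𝓝 (x : E) := by
    refine Filter.inter_mem hu (Filter.iInter_mem.mpr fun i => ?_)
    exact (hcl i).isOpen_compl.mem_nhds i.2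
  obtain ⟨r, hr, hrs⟩ := Metric.mem_nhds_iff.mp h1
  refine ⟨Subtype.val ⁻¹' ball (x : E) r, ?_, ?_, ?_⟩
  · exact continuous_subtype_val.continuousAt.preimage_mem_nhds (ball_mem_nhds _ hr)
  · rw [← Topology.IsInducing.subtypeVal.isPreconnected_image]
    have : Subtype.val '' (Subtype.val ⁻¹' ball (x : E) r : Set ↥(⋃ i, C i))
        = ⋃ i : {i // (x : E) ∈ C i}, (ball (x : E) r ∩ C i) := by
      ext y
      constructor
      · rintro ⟨⟨y, hy⟩, hyr, rfl⟩
        obtain ⟨i, hi⟩ := mem_iUnion.mp hy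
        have hx : (x : E) ∈ C i := by
          by_contra hx
          exact (mem_iInter.mp (hrs hyr).2 ⟨i, hx⟩) hi
        exact mem_iUnion.mpr ⟨⟨i, hx⟩, hyr, hi⟩
      · intro hy
        obtain ⟨i, hyr, hi⟩ := mem_iUnion.mp hy
        exact ⟨⟨y, mem_iUnion.mpr ⟨i, hi⟩⟩, hyr, rfl⟩
    rw [this]
    refine isPreconnected_iUnion ⟨x, mem_iInter.mpr fun i => ⟨mem_ball_self hr, i.2⟩⟩ fun i => ?_
    exact ((convex_ball _ _).inter (hC i)).isPreconnected
  · intro y hy
    exact huU (hrs hy).1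

/-- The vertices. -/
noncomputable def vtx (i : Fin 5) : Fin 5 → ℝ := Pi.single i 1

/-- The edges. -/
def seg (i j : Fin 5) : Set (Fin 5 → ℝ) := segment ℝ (vtx i) (vtx j)

theorem mem_seg {i j : Fin 5} {x : Fin 5 → ℝ} (hx : x ∈ seg i j) :
    ∃ a b : ℝ, 0 ≤ a ∧ 0 ≤ b ∧ a + b = 1 ∧ ∀ k, x k = (if k = i then a else 0)
      + (if k = j then b else 0) := by
  obtain ⟨a, b, ha, hb, hab, rfl⟩ := hx
  refine ⟨a, b, ha, hb, hab, fun k => ?_⟩
  simp [vtx, Pi.single_apply]

/-- The underlying set of `K₅`. -/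
def K5set : Set (Fin 5 → ℝ) := ⋃ p : Fin 5 × Fin 5, seg p.1 p.2

/-- The topological graph `K₅`. -/
abbrev K5 : Type := ↥K5set

theorem seg_compact (i j : Fin 5) : IsCompact (seg i j) := by
  have : seg i j = (AffineMap.lineMap (vtx i) (vtx j) : ℝ →ᵃ[ℝ] (Fin 5 → ℝ)) '' Set.Icc (0:ℝ) 1 :=
    segment_eq_image_lineMap ℝ _ _
  rw [this]
  exact isCompact_Icc.image (AffineMap.lineMap_continuous)

theorem seg_connected (i j : Fin 5) : IsConnected (seg i j) :=
  ⟨⟨vtx i, left_mem_segment ℝ _ _⟩, (convex_segment _ _).isPreconnected⟩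

theorem seg_sub (i j : Fin 5) : seg i j ⊆ K5set := fun _ hx => mem_iUnion.mpr ⟨(i, j), hx⟩

theorem vtx_mem (i : Fin 5) : vtx i ∈ K5set := seg_sub i i (left_mem_segment ℝ _ _)

instance : CompactSpace K5 :=
  isCompact_iff_compactSpace.mp (isCompact_iUnion fun p => seg_compact p.1 p.2)

instance : LocallyConnectedSpace K5 :=
  locConn_of_finite_convex (fun p : Fin 5 × Fin 5 => seg p.1 p.2)
    (fun _ => convex_segment _ _) (fun p => (seg_compact p.1 p.2).isClosed)

theorem K5set_connected : IsConnected K5set := by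
  refine ⟨⟨vtx 0, vtx_mem 0⟩, isPreconnected_of_forall (vtx 0) fun y hy => ?_⟩
  obtain ⟨⟨i, j⟩, hij⟩ := mem_iUnion.mp hy
  refine ⟨seg 0 i ∪ seg i j, union_subset (seg_sub 0 i) (seg_sub i j),
    Or.inl (left_mem_segment ℝ _ _), Or.inr hij, ?_⟩
  exact (IsConnected.union ⟨vtx i, right_mem_segment ℝ _ _, left_mem_segment ℝ _ _⟩
    (seg_connected 0 i) (seg_connected i j)).isPreconnected

instance : ConnectedSpace K5 := isConnected_iff_connectedSpace.mp K5set_connected

instance : Nontrivial K5 := by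
  refine ⟨⟨vtx 0, vtx_mem 0⟩, ⟨vtx 1, vtx_mem 1⟩, fun h => ?_⟩
  have := congrFun (congrArg Subtype.val h) 0
  simp [vtx] at this

/-- Every nondegenerate subcontinuum of `K₅` has interior. -/
theorem K5_interior (L : Set K5) (hL : IsClosed L) (hLc : IsPreconnected L)
    (hLn : L.Nontrivial) : ∃ U : Set K5, IsOpen U ∧ U.Nonempty ∧ U ⊆ L := by
  obtain ⟨u₀, hu₀, v₀, hv₀, huv₀⟩ := hLn
  obtain ⟨i, hi⟩ : ∃ i, u₀.1 i ≠ v₀.1 i := by
    by_contra h
    push Not at h
    exact huv₀ (Subtype.ext (funext h))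
  obtain ⟨u, hu, v, hv, huv⟩ : ∃ u ∈ L, ∃ v ∈ L, u.1 i < v.1 i := by
    rcases lt_or_gt_of_ne hi with h | h
    · exact ⟨u₀, hu₀, v₀, hv₀, h⟩
    · exact ⟨v₀, hv₀, u₀, hu₀, h⟩
  have hcont : ∀ k : Fin 5, Continuous (fun x : K5 => x.1 k) := fun k =>
    (continuous_apply k).comp continuous_subtype_val
  have hrange : ∀ x : K5, 0 ≤ x.1 i ∧ x.1 i ≤ 1 := by
    intro x
    obtain ⟨⟨p, q⟩, hpq⟩ := mem_iUnion.mp x.2
    obtain ⟨a, b, ha, hb, hab, hk⟩ := mem_seg hpq
    rw [hk i]
    constructor <;> split_ifs <;> linarith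
  -- description of a point with `0 < x i < 1`
  have hdesc : ∀ x : K5, 0 < x.1 i → x.1 i < 1 → ∃ j, j ≠ i ∧ 0 < x.1 j ∧
      (x : Fin 5 → ℝ) = fun k => (if k = i then x.1 i else 0) + (if k = j then 1 - x.1 i else 0) := by
    intro x h0 h1
    obtain ⟨⟨p, q⟩, hpq⟩ := mem_iUnion.mp x.2
    obtain ⟨a, b, ha, hb, hab, hk⟩ := mem_seg hpq
    simp only at hk
    have hi' := hk i
    by_cases hip : i = p
    · by_cases hiq : i = q
      · rw [if_pos hip, if_pos hiq] at hi'; linarith
      · rw [if_pos hip, if_neg hiq, add_zero] at hi'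
        refine ⟨q, fun h => hiq h.symm, ?_, ?_⟩
        · rw [hk q, if_neg (fun h => hiq (hip.trans h.symm)), if_pos rfl]; linarith
        · funext k
          rw [hk k, hi', hip]
          congr 1
          split_ifs <;> linarith
    · by_cases hiq : i = q
      · rw [if_neg hip, if_pos hiq, zero_add] at hi'
        refine ⟨p, fun h => hip h.symm, ?_, ?_⟩
        · rw [hk p, if_pos rfl, if_neg (fun h => hip (hiq.trans h.symm))]; linarith
        · funext k
          rw [hk k, hi', hiq, add_comm]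
          congr 1
          split_ifs <;> linarith
      · rw [if_neg hip, if_neg hiq] at hi'; linarith
  have hLcl : IsClosed (Subtype.val '' L : Set (Fin 5 → ℝ)) :=
    (hL.isCompact.image continuous_subtype_val).isClosed
  let P : Fin 5 → ℝ → (Fin 5 → ℝ) := fun j c k =>
    (if k = i then c else 0) + (if k = j then 1 - c else 0)
  have hP : ∀ j, Continuous (P j) := by
    intro j
    refine continuous_pi fun k => ?_
    show Continuous fun c : ℝ => (if k = i then c else 0) + (if k = j then 1 - c else 0)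
    split_ifs <;> fun_prop
  let T : Option {j : Fin 5 // j ≠ i} → Set ℝ := fun o =>
    match o with
    | none => (Ioo (u.1 i) (v.1 i))ᶜ
    | some j => P j ⁻¹' (Subtype.val '' L)
  have hT : ∀ o, IsClosed (T o) := by
    rintro (_ | j)
    · exact isOpen_Ioo.isClosed_compl
    · exact hLcl.preimage (hP j)
  have hU : ⋃ o, T o = univ := by
    refine eq_univ_of_forall fun c => ?_
    by_cases hc : c ∈ Ioo (u.1 i) (v.1 i)
    · have him : c ∈ (fun x : K5 => x.1 i) '' L := by
        have hp : IsPreconnected ((fun x : K5 => x.1 i) '' L) :=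
          hLc.image _ (hcont i).continuousOn
        exact hp.Icc_subset ⟨u, hu, rfl⟩ ⟨v, hv, rfl⟩ ⟨hc.1.le, hc.2.le⟩
      obtain ⟨x, hxL, hxc⟩ := him
      simp only at hxc
      obtain ⟨j, hji, -, hx⟩ := hdesc x (by rw [hxc]; exact (hrange u).1.trans_lt hc.1)
        (by rw [hxc]; exact hc.2.trans_le (hrange v).2)
      refine mem_iUnion.mpr ⟨some ⟨j, hji⟩, x, hxL, ?_⟩
      rw [hx, hxc]
    · exact mem_iUnion.mpr ⟨none, hc⟩
  obtain ⟨c, hc, hcU⟩ := (dense_iUnion_interior_of_closed hT hU).inter_open_nonempty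
    (Ioo (u.1 i) (v.1 i)) isOpen_Ioo (nonempty_Ioo.mpr huv)
  obtain ⟨o, ho⟩ := mem_iUnion.mp hcU
  rcases o with _ | ⟨j, hji⟩
  · exact absurd hc (interior_subset ho)
  · refine ⟨{x | x.1 i ∈ interior (T (some ⟨j, hji⟩)) ∩ Ioo (u.1 i) (v.1 i) ∧ 0 < x.1 j},
      ?_, ?_, ?_⟩
    · exact ((isOpen_interior.inter isOpen_Ioo).preimage (hcont i)).inter
        (isOpen_lt continuous_const (hcont j))
    · have := interior_subset ho
      obtain ⟨x, hxL, hx⟩ := this
      have e1 : x.1 i = c := by rw [hx]; simp [P, hji.symm]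
      have e2 : x.1 j = 1 - c := by rw [hx]; simp [P, hji]
      refine ⟨x, ⟨?_, ?_⟩, ?_⟩
      · rw [e1]; exact ho
      · rw [e1]; exact hc
      · show 0 < x.1 j
        rw [e2]; linarith [hc.2, (hrange v).2]
    · rintro x ⟨⟨hx1, hx2⟩, hx3⟩
      obtain ⟨x', hx'L, hx'⟩ := interior_subset hx1
      obtain ⟨j', hj'i, hj', hx⟩ := hdesc x ((hrange u).1.trans_lt hx2.1)
        (hx2.2.trans_le (hrange v).2)
      have hjj : j' = j := by
        by_contra hne
        have := congrFun hx j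
        rw [if_neg hji, if_neg (fun h => hne h.symm)] at this
        linarith
      subst hjj
      have : x' = x := Subtype.ext (hx'.trans hx.symm)
      rwa [← this]

/-- The preimage of a closed connected set under a continuous surjection of a compact space with
connected fibres is connected. -/
theorem preimage_connected {X Y : Type*} [TopologicalSpace X] [TopologicalSpace Y]
    [CompactSpace X] [T2Space Y] {f : X → Y} (hf : Continuous f) (hs : Function.Surjective f)
    (hfib : ∀ y, IsPreconnected (f ⁻¹' {y})) {E : Set Y} (hE : IsPreconnected E)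
    (hEc : IsClosed E) : IsPreconnected (f ⁻¹' E) := by
  rw [isPreconnected_closed_iff]
  rintro A B hA hB hcov ⟨a, ha, haA⟩ ⟨b, hb, hbB⟩
  have hcl : ∀ C : Set X, IsClosed C → IsClosed (f '' (f ⁻¹' E ∩ C)) := fun C hC =>
    (((hEc.preimage hf).inter hC).isCompact.image hf).isClosed
  obtain ⟨y, hyE, ⟨s, ⟨hsE, hsA⟩, hsy⟩, ⟨t, ⟨htE, htB⟩, hty⟩⟩ :=
    isPreconnected_closed_iff.mp hE _ _ (hcl A hA) (hcl B hB) (by
      intro y hy
      obtain ⟨x, rfl⟩ := hs y
      rcases hcov hy with h | h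
      · exact Or.inl ⟨x, ⟨hy, h⟩, rfl⟩
      · exact Or.inr ⟨x, ⟨hy, h⟩, rfl⟩) ⟨f a, ha, a, ⟨ha, haA⟩, rfl⟩ ⟨f b, hb, b, ⟨hb, hbB⟩, rfl⟩
  obtain ⟨z, hz, hzAB⟩ := isPreconnected_closed_iff.mp (hfib y) A B hA hB
    (fun z hz => hcov (by
      show f z ∈ E
      rw [show f z = y from hz]; exact hyE)) ⟨s, hsy, hsA⟩ ⟨t, hty, htB⟩
  exact ⟨z, by
    show f z ∈ E
    rw [show f z = y from hz]; exact hyE, hzAB⟩

theorem seg_disjoint {i j k l : Fin 5} (h1 : i ≠ k) (h2 : i ≠ l) (h3 : j ≠ k) (h4 : j ≠ l) :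
    Disjoint (seg i j) (seg k l) := by
  rw [Set.disjoint_left]
  intro x hx hx'
  obtain ⟨a, b, ha, hb, hab, h⟩ := mem_seg hx
  obtain ⟨a', b', ha', hb', hab', h'⟩ := mem_seg hx'
  have e1 := (h k).symm.trans (h' k)
  have e2 := (h l).symm.trans (h' l)
  rw [if_neg h1.symm, if_neg h3.symm, if_pos rfl] at e1
  rw [if_neg h2.symm, if_neg h4.symm, if_pos rfl] at e2
  split_ifs at e1 e2 <;> linarith

theorem thickening_connected {M : Set (EuclideanSpace ℝ (Fin 2))} (hM : IsConnected M)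
    {δ : ℝ} (hδ : 0 < δ) : IsConnected (thickening δ M) := by
  rw [← add_ball_zero, ← Set.image2_add, ← Set.image_prod]
  exact (hM.prod ((convex_ball _ _).isConnected ⟨0, mem_ball_self hδ⟩)).image _
    (by fun_prop)

/-- `K₅` is not the image of a compact subset of the plane under a continuous surjection with
connected fibres. -/
theorem K5_not_monotone_image (S : Set (EuclideanSpace ℝ (Fin 2))) (hS : IsCompact S)
    (f : ↥S → K5) (hf : Continuous f) (hs : Function.Surjective f)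
    (hfib : ∀ y, IsPreconnected (f ⁻¹' {y})) : False := by
  have : CompactSpace ↥S := isCompact_iff_compactSpace.mp hS
  let E : Fin 5 → Fin 5 → Set K5 := fun i j => Subtype.val ⁻¹' seg i j
  have hEcl : ∀ i j, IsClosed (E i j) := fun i j =>
    (seg_compact i j).isClosed.preimage continuous_subtype_val
  have hEcon : ∀ i j, IsConnected (E i j) := by
    intro i j
    refine ⟨⟨⟨vtx i, vtx_mem i⟩, left_mem_segment ℝ _ _⟩, ?_⟩
    rw [← Topology.IsInducing.subtypeVal.isPreconnected_image]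
    rw [Subtype.image_preimage_coe, Set.inter_eq_right.mpr (seg_sub i j)]
    exact (seg_connected i j).isPreconnected
  let M : Fin 5 → Fin 5 → Set (EuclideanSpace ℝ (Fin 2)) := fun i j =>
    Subtype.val '' (f ⁻¹' E i j)
  have hMc : ∀ i j, IsCompact (M i j) := fun i j =>
    ((hEcl i j).preimage hf).isCompact.image continuous_subtype_val
  have hMcon : ∀ i j, IsConnected (M i j) := by
    intro i j
    refine IsConnected.image ⟨?_, ?_⟩ _ continuous_subtype_val.continuousOn
    · exact (hEcon i j).nonempty.preimage hs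
    · exact preimage_connected hf hs hfib (hEcon i j).isPreconnected (hEcl i j)
  choose p hp using fun i : Fin 5 => hs ⟨vtx i, vtx_mem i⟩
  have hpl : ∀ i j, (p i : EuclideanSpace ℝ (Fin 2)) ∈ M i j := fun i j =>
    ⟨p i, by
      show (f (p i)).1 ∈ seg i j
      rw [hp i]; exact left_mem_segment ℝ _ _, rfl⟩
  have hpr : ∀ i j, (p j : EuclideanSpace ℝ (Fin 2)) ∈ M i j := fun i j =>
    ⟨p j, by
      show (f (p j)).1 ∈ seg i j
      rw [hp j]; exact right_mem_segment ℝ _ _, rfl⟩
  have hdisj : ∀ i j k l : Fin 5, i ≠ k → i ≠ l → j ≠ k → j ≠ l → Disjoint (M i j) (M k l) := by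
    intro i j k l h1 h2 h3 h4
    rw [Set.disjoint_left]
    rintro x ⟨y, hy, rfl⟩ ⟨z, hz, hzy⟩
    have : z = y := Subtype.ext hzy
    subst this
    exact Set.disjoint_left.mp (seg_disjoint h1 h2 h3 h4) hy hz
  have hδ : ∃ δ > 0, ∀ q : Fin 5 × Fin 5 × Fin 5 × Fin 5,
      q.1 ≠ q.2.2.1 → q.1 ≠ q.2.2.2 → q.2.1 ≠ q.2.2.1 → q.2.1 ≠ q.2.2.2 →
      Disjoint (thickening δ (M q.1 q.2.1)) (thickening δ (M q.2.2.1 q.2.2.2)) := by
    have : ∀ᶠ δ in 𝓝[>] (0:ℝ), ∀ q : Fin 5 × Fin 5 × Fin 5 × Fin 5,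
        q.1 ≠ q.2.2.1 → q.1 ≠ q.2.2.2 → q.2.1 ≠ q.2.2.1 → q.2.1 ≠ q.2.2.2 →
        Disjoint (thickening δ (M q.1 q.2.1)) (thickening δ (M q.2.2.1 q.2.2.2)) := by
      rw [Filter.eventually_all]
      rintro ⟨i, j, k, l⟩
      by_cases h : i ≠ k ∧ i ≠ l ∧ j ≠ k ∧ j ≠ l
      · obtain ⟨h1, h2, h3, h4⟩ := h
        obtain ⟨δ, hδ, hd⟩ := (hdisj i j k l h1 h2 h3 h4).exists_thickenings (hMc i j)
          (hMc k l).isClosed
        filter_upwards [Ioo_mem_nhdsGT hδ] with ε hε _ _ _ _
        exact hd.mono (thickening_mono hε.2.le _) (thickening_mono hε.2.le _)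
      · refine Filter.Eventually.of_forall fun δ h1 h2 h3 h4 => absurd ⟨h1, h2, h3, h4⟩ h
    obtain ⟨δ, hδ, hδ'⟩ := (this.and self_mem_nhdsWithin).exists
    exact ⟨δ, hδ', hδ⟩
  obtain ⟨δ, hδ, hd⟩ := hδ
  have hjoin : ∀ i j, JoinedIn (thickening δ (M i j)) (p i : EuclideanSpace ℝ (Fin 2)) (p j) := by
    intro i j
    have hpc : IsPathConnected (thickening δ (M i j)) :=
      isOpen_thickening.isConnected_iff_isPathConnected.mp (thickening_connected (hMcon i j) hδ)
    exact hpc.joinedIn _ (self_subset_thickening hδ _ (hpl i j)) _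
      (self_subset_thickening hδ _ (hpr i j))
  let e := Complex.orthonormalBasisOneI.repr.symm
  let γ : Fin 5 → Fin 5 → ℝ → ℂ := fun i j t => e ((hjoin i j).somePath.extend t)
  refine k5_nonplanar γ (fun i => e (p i)) (fun i j _ => ?_) (fun i j _ => ?_) (fun i j _ => ?_)
    (fun i j k l _ _ h1 h2 h3 h4 s t => ?_)
  · exact e.continuous.comp (Path.continuous_extend _)
  · show e ((hjoin i j).somePath.extend 0) = _
    rw [Path.extend_zero]
  · show e ((hjoin i j).somePath.extend 1) = _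
    rw [Path.extend_one]
  · intro h
    have h' := e.injective h
    have m1 : (hjoin i j).somePath.extend s ∈ thickening δ (M i j) := by
      have := (hjoin i j).somePath.extend_range ▸ mem_range_self (f := (hjoin i j).somePath.extend) s
      obtain ⟨s', hs'⟩ := this
      rw [← hs']
      exact (hjoin i j).somePath_mem s'
    have m2 : (hjoin k l).somePath.extend t ∈ thickening δ (M k l) := by
      have := (hjoin k l).somePath.extend_range ▸ mem_range_self (f := (hjoin k l).somePath.extend) t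
      obtain ⟨s', hs'⟩ := this
      rw [← hs']
      exact (hjoin k l).somePath_mem s'
    exact Set.disjoint_left.mp (hd (i, j, k, l) h1 h2 h3 h4) m1 (h' ▸ m2)

end Pool.Agent.TH545
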