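import Pool.Agent.TH672.Sem

/-!
# Job 199 (MYC-10): standard strings and the T-scheme in structures with `Mod P S`
-/

set_option autoImplicit false

namespace Pool.Agent.TH672

open Fm

namespace J199

/-! ### strings in a structure satisfying Robinson's axioms -/

section rob

variable {κ : Type} {S : Str κ} (hr : Rob S)

include hr

theorem app_ex (b : Bool) (x : S.M) : ∃ y, App S b x y := by
  obtain ⟨u, hu⟩ := hr.a_ex x x
  obtain ⟨w, hw⟩ := hr.s_ex u
  cases b
  · exact ⟨w, by simp only [App, Bool.false_eq_true, if_false]; exact ⟨u, hu, hw⟩⟩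
  · obtain ⟨y, hy⟩ := hr.s_ex w
    exact ⟨y, by simp only [App, if_true]; exact ⟨u, w, hu, hw, hy⟩⟩

theorem app_un {b : Bool} {x y y' : S.M} (h : App S b x y) (h' : App S b x y') : y = y' := by
  cases b
  · simp only [App, Bool.false_eq_true, if_false] at h h'
    obtain ⟨u, hu, hy⟩ := h
    obtain ⟨u', hu', hy'⟩ := h'
    cases hr.a_un _ _ _ _ hu hu'
    exact hr.s_un _ _ _ hy hy'
  · simp only [App, if_true] at h h'
    obtain ⟨u, w, hu, hw, hy⟩ := h
    obtain ⟨u', w', hu', hw', hy'⟩ := h'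
    cases hr.a_un _ _ _ _ hu hu'
    cases hr.s_un _ _ _ hw hw'
    exact hr.s_un _ _ _ hy hy'

theorem appL_ex : ∀ (σ : List Bool) (a : S.M), ∃ c, AppL S σ a c
  | [], a => ⟨a, rfl⟩
  | b :: σ, a => by
    obtain ⟨t, ht⟩ := app_ex hr b a
    obtain ⟨c, hc⟩ := appL_ex σ t
    exact ⟨c, t, ht, hc⟩

theorem appL_un : ∀ {σ : List Bool} {a c c' : S.M}, AppL S σ a c → AppL S σ a c' → c = c'
  | [], a, c, c', h, h' => by
    have e : a = c := h
    have e' : a = c' := h'
    rw [← e, ← e']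
  | b :: σ, a, c, c', ⟨t, ht, h⟩, ⟨t', ht', h'⟩ => by
    cases app_un hr ht ht'
    exact appL_un h h'

omit hr in
theorem appL_append : ∀ {σ τ : List Bool} {a c : S.M},
    AppL S (σ ++ τ) a c ↔ ∃ b, AppL S σ a b ∧ AppL S τ b c
  | [], τ, a, c => by
    constructor
    · intro h
      exact ⟨a, rfl, h⟩
    · rintro ⟨b, h, h'⟩
      have e : a = b := h
      rw [e]
      exact h'
  | d :: σ, τ, a, c => by
    constructor
    · rintro ⟨t, ht, h⟩
      obtain ⟨b, hb, hb'⟩ := appL_append.1 h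
      exact ⟨b, ⟨t, ht, hb⟩, hb'⟩
    · rintro ⟨b, ⟨t, ht, hb⟩, hb'⟩
      exact ⟨t, ht, appL_append.2 ⟨b, hb, hb'⟩⟩

omit hr in
theorem appL_one {b : Bool} {a c : S.M} : AppL S [b] a c ↔ App S b a c := by
  constructor
  · rintro ⟨t, ht, h⟩
    have e : t = c := h
    rw [← e]
    exact ht
  · intro h
    exact ⟨c, h, rfl⟩

omit hr in
theorem strV_append {σ τ : List Bool} {e : S.M} :
    StrV S (σ ++ τ) e ↔ ∃ d, StrV S σ d ∧ AppL S τ d e := by
  constructor
  · rintro ⟨z, hz, h⟩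
    obtain ⟨b, hb, hb'⟩ := appL_append.1 h
    exact ⟨b, ⟨z, hz, hb⟩, hb'⟩
  · rintro ⟨d, ⟨z, hz, h⟩, h'⟩
    exact ⟨z, hz, appL_append.2 ⟨d, h, h'⟩⟩

omit hr in
theorem strV_snoc {σ : List Bool} {b : Bool} {e : S.M} :
    StrV S (σ ++ [b]) e ↔ ∃ d, StrV S σ d ∧ App S b d e := by
  rw [strV_append]
  exact exists_congr fun d => and_congr Iff.rfl appL_one

omit hr in
theorem strV_nil {e : S.M} : StrV S [] e ↔ S.zero e := by
  constructor
  · rintro ⟨z, hz, h⟩
    have h' : z = e := h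
    rw [← h']
    exact hz
  · intro h
    exact ⟨e, h, rfl⟩

theorem strV_ex (σ : List Bool) : ∃ e, StrV S σ e := by
  obtain ⟨z, hz⟩ := hr.z_ex
  obtain ⟨e, he⟩ := appL_ex hr σ z
  exact ⟨e, z, hz, he⟩

theorem strV_un {σ : List Bool} {e e' : S.M} (h : StrV S σ e) (h' : StrV S σ e') : e = e' := by
  obtain ⟨z, hz, h⟩ := h
  obtain ⟨z', hz', h'⟩ := h'
  cases hr.z_un _ _ hz hz'
  exact appL_un hr h h'

end rob

/-- `e` is the standard number `k` -/
def NumV {κ : Type} (S : Str κ) : ℕ → S.M → Prop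
  | 0, e => S.zero e
  | k + 1, e => ∃ d, NumV S k d ∧ S.succ d e

section rob2

variable {κ : Type} {S : Str κ} (hr : Rob S)

include hr

theorem numV_ex : ∀ k, ∃ e, NumV S k e
  | 0 => hr.z_ex
  | k + 1 => by
    obtain ⟨d, hd⟩ := numV_ex k
    obtain ⟨e, he⟩ := hr.s_ex d
    exact ⟨e, d, hd, he⟩

theorem numV_un : ∀ {k : ℕ} {e e' : S.M}, NumV S k e → NumV S k e' → e = e'
  | 0, _, _, h, h' => hr.z_un _ _ h h'
  | k + 1, _, _, ⟨d, hd, he⟩, ⟨d', hd', he'⟩ => by
    cases numV_un hd hd'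
    exact hr.s_un _ _ _ he he'

theorem numV_inj : ∀ {k l : ℕ} {e : S.M}, NumV S k e → NumV S l e → k = l
  | 0, 0, _, _, _ => rfl
  | 0, l + 1, _, h, ⟨d', _, he'⟩ => absurd h (hr.s_nz _ _ he')
  | k + 1, 0, _, ⟨d, _, he⟩, h => absurd h (hr.s_nz _ _ he)
  | k + 1, l + 1, _, ⟨d, hd, he⟩, ⟨d', hd', he'⟩ => by
    cases hr.s_inj _ _ _ he he'
    rw [numV_inj hd hd']

end rob2

section md

variable {P : Form} {S : Str Sy} (h : Mod P S)

include h

theorem cat_std {σ : List Bool} {x : S.M} (hx : StrV S σ x) : ∀ (τ : List Bool) {y z : S.M},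
    StrV S τ y → StrV S (σ ++ τ) z → S.r3 .cat x y z := by
  intro τ
  induction τ using List.reverseRecOn with
  | nil =>
    intro y z hy hz
    rw [List.append_nil] at hz
    cases strV_un h.rob hx hz
    exact h.c1 _ _ (strV_nil.1 hy)
  | append_singleton τ b ih =>
    intro y z hy hz
    rw [← List.append_assoc] at hz
    obtain ⟨y0, hy0, hy1⟩ := strV_snoc.1 hy
    obtain ⟨z0, hz0, hz1⟩ := strV_snoc.1 hz
    exact h.c2 b _ _ _ _ _ (ih hy0 hz0) hy1 hz1

theorem vs_std : ∀ {k : ℕ} {e u : S.M}, NumV S k e → StrV S (varStr k) u → S.r2 .vs e u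
  | 0, e, u, he, hu => h.v1 _ _ he hu
  | k + 1, e, u, ⟨d, hd, he⟩, hu => by
    obtain ⟨c, hc⟩ := strV_ex h.rob [true]
    obtain ⟨w, hw⟩ := strV_ex h.rob (varStr k)
    refine h.v2 d w e c u (vs_std hd hw) he hc (cat_std h hc (varStr k) hw ?_)
    have e' : varStr (k + 1) = [true] ++ varStr k := by
      simp [varStr, List.replicate_succ]
    rw [← e']
    exact hu

theorem p1_std {t : List Bool} {x : ℕ} {e y : S.M} (he : NumV S x e)
    (hy : StrV S (t ++ varStr x) y) : P1 S t y e := by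
  obtain ⟨c, hc⟩ := strV_ex h.rob t
  obtain ⟨u, hu⟩ := strV_ex h.rob (varStr x)
  exact ⟨c, u, hc, vs_std h he hu, cat_std h hc _ hu hy⟩

theorem p2_std {t : List Bool} {x x' : ℕ} {e e' y : S.M} (he : NumV S x e) (he' : NumV S x' e')
    (hy : StrV S (t ++ varStr x ++ varStr x') y) : P2 S t y e e' := by
  obtain ⟨c, hc⟩ := strV_ex h.rob t
  obtain ⟨u, hu⟩ := strV_ex h.rob (varStr x)
  obtain ⟨u', hu'⟩ := strV_ex h.rob (varStr x')
  obtain ⟨w, hw⟩ := strV_ex h.rob (t ++ varStr x)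
  exact ⟨c, u, u', w, hc, vs_std h he hu, vs_std h he' hu', cat_std h hc _ hu hw,
    cat_std h hw _ hu' hy⟩

theorem p3_std {t : List Bool} {x x' x'' : ℕ} {e e' e'' y : S.M} (he : NumV S x e)
    (he' : NumV S x' e') (he'' : NumV S x'' e'')
    (hy : StrV S (t ++ varStr x ++ varStr x' ++ varStr x'') y) : P3 S t y e e' e'' := by
  obtain ⟨c, hc⟩ := strV_ex h.rob t
  obtain ⟨u, hu⟩ := strV_ex h.rob (varStr x)
  obtain ⟨u', hu'⟩ := strV_ex h.rob (varStr x')
  obtain ⟨u'', hu''⟩ := strV_ex h.rob (varStr x'')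
  obtain ⟨w, hw⟩ := strV_ex h.rob (t ++ varStr x)
  obtain ⟨w', hw'⟩ := strV_ex h.rob (t ++ varStr x ++ varStr x')
  exact ⟨c, u, u', w, u'', w', hc, vs_std h he hu, vs_std h he' hu', vs_std h he'' hu'',
    cat_std h hc _ hu hw, cat_std h hw _ hu' hw', cat_std h hw' _ hu'' hy⟩

theorem mem_std : ∀ (φ : Form) {y : S.M}, StrV S φ.str y → S.r2 .mem y y
  | .bot, y, hy => h.f0 y hy
  | .eq a b, y, hy => by
    obtain ⟨e, he⟩ := numV_ex h.rob a
    obtain ⟨e', he'⟩ := numV_ex h.rob b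
    exact h.f2 y e e' (p2_std h he he' hy)
  | .zero a, y, hy => by
    obtain ⟨e, he⟩ := numV_ex h.rob a
    exact h.f1 y e (p1_std h he hy)
  | .succ a b, y, hy => by
    obtain ⟨e, he⟩ := numV_ex h.rob a
    obtain ⟨e', he'⟩ := numV_ex h.rob b
    exact h.f2' y e e' (p2_std h he he' hy)
  | .add a b c, y, hy => by
    obtain ⟨e, he⟩ := numV_ex h.rob a
    obtain ⟨e', he'⟩ := numV_ex h.rob b
    obtain ⟨e'', he''⟩ := numV_ex h.rob c
    exact h.f3 y e e' e'' (p3_std h he he' he'' hy)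
  | .mul a b c, y, hy => by
    obtain ⟨e, he⟩ := numV_ex h.rob a
    obtain ⟨e', he'⟩ := numV_ex h.rob b
    obtain ⟨e'', he''⟩ := numV_ex h.rob c
    exact h.f3' y e e' e'' (p3_std h he he' he'' hy)
  | .imp φ ψ, y, hy => by
    obtain ⟨c, hc⟩ := strV_ex h.rob [true, true, false]
    obtain ⟨y1, hy1⟩ := strV_ex h.rob φ.str
    obtain ⟨y2, hy2⟩ := strV_ex h.rob ψ.str
    obtain ⟨w, hw⟩ := strV_ex h.rob ([true, true, false] ++ φ.str)
    exact h.f6 y y1 y2 ⟨c, w, hc, mem_std φ hy1, mem_std ψ hy2, cat_std h hc _ hy1 hw,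
      cat_std h hw _ hy2 hy⟩
  | .all x φ, y, hy => by
    obtain ⟨e, he⟩ := numV_ex h.rob x
    obtain ⟨c, hc⟩ := strV_ex h.rob [true, true, true]
    obtain ⟨u, hu⟩ := strV_ex h.rob (varStr x)
    obtain ⟨y1, hy1⟩ := strV_ex h.rob φ.str
    obtain ⟨w, hw⟩ := strV_ex h.rob ([true, true, true] ++ varStr x)
    exact h.f7 y e y1 ⟨c, u, w, hc, vs_std h he hu, mem_std φ hy1, cat_std h hc _ hu hw,
      cat_std h hw _ hy1 hy⟩

theorem pi_std {φ ψ : Form} {y y1 y2 : S.M} (hy1 : StrV S φ.str y1) (hy2 : StrV S ψ.str y2)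
    (hy : StrV S (Form.imp φ ψ).str y) : PI S y y1 y2 := by
  obtain ⟨c, hc⟩ := strV_ex h.rob [true, true, false]
  obtain ⟨w, hw⟩ := strV_ex h.rob ([true, true, false] ++ φ.str)
  exact ⟨c, w, hc, mem_std h φ hy1, mem_std h ψ hy2, cat_std h hc _ hy1 hw,
    cat_std h hw _ hy2 hy⟩

theorem pa_std {φ : Form} {x : ℕ} {e y y1 : S.M} (he : NumV S x e) (hy1 : StrV S φ.str y1)
    (hy : StrV S (Form.all x φ).str y) : PA S y e y1 := by
  obtain ⟨c, hc⟩ := strV_ex h.rob [true, true, true]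
  obtain ⟨u, hu⟩ := strV_ex h.rob (varStr x)
  obtain ⟨w, hw⟩ := strV_ex h.rob ([true, true, true] ++ varStr x)
  exact ⟨c, u, w, hc, vs_std h he hu, mem_std h φ hy1, cat_std h hc _ hu hw,
    cat_std h hw _ hy1 hy⟩

omit h in
theorem strs_snoc (A : List Form) (φ : Form) : strs (A ++ [φ]) = strs A ++ φ.str := by
  simp [strs]

theorem lc_std' (A : List Form) : ∀ {a : S.M}, StrV S (strs A) a → S.r1 .lc a := by
  induction A using List.reverseRecOn with
  | nil =>
    intro a ha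
    exact h.l1 a (strV_nil.1 ha)
  | append_singleton A φ ih =>
    intro a ha
    rw [strs_snoc] at ha
    obtain ⟨x, hx⟩ := strV_ex h.rob (strs A)
    obtain ⟨y, hy⟩ := strV_ex h.rob φ.str
    exact h.l3 x y a (ih hx) (mem_std h φ hy) (cat_std h hx _ hy ha)

theorem mem_lc (A : List Form) : ∀ {a u : S.M}, StrV S (strs A) a → S.r2 .mem u a →
    ∃ φ ∈ A, StrV S φ.str u := by
  induction A using List.reverseRecOn with
  | nil =>
    intro a u ha hu
    exact absurd hu (h.l2 a u (strV_nil.1 ha))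
  | append_singleton A φ ih =>
    intro a u ha hu
    rw [strs_snoc] at ha
    obtain ⟨x, hx⟩ := strV_ex h.rob (strs A)
    obtain ⟨y, hy⟩ := strV_ex h.rob φ.str
    rcases h.l4 x y a u (lc_std' h A hx) (mem_std h φ hy) (cat_std h hx _ hy ha) hu with h1 | h1
    · obtain ⟨ψ, hψ, hs⟩ := ih hx h1
      exact ⟨ψ, List.mem_append_left _ hψ, hs⟩
    · rw [h1]
      exact ⟨φ, by simp, hy⟩

/-- The T-scheme. -/
theorem tscheme {n : S.M → Prop} {x : S.M → S.M → Prop} (hx : SemX S n x) : ∀ (φ : Form)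
    {y s F K c : S.M} {v : ℕ → S.M}, StrV S φ.str y → S.r3 .cl y s F → S.r2 .dp F K → n K →
    ¬ S.zero c → (∀ i e, φ.Free i → NumV S i e → S.r3 .vv s e (v i)) →
    (x F c ↔ Sat S (emb φ) v) := by
  intro φ
  induction φ with
  | bot =>
    intro y s F K c v hy hcl hdp hn hc hv
    obtain ⟨h1, h2⟩ := h.k0 y s F hy hcl
    obtain ⟨-, -, h3⟩ := hx K F hn hdp
    rw [(h3 c hc).1 h1]
    exact ⟨fun h4 => (h2 h4).elim, fun h4 => h4.elim⟩
  | eq a b =>
    intro y s F K c v hy hcl hdp hn hc hv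
    obtain ⟨e, he⟩ := numV_ex h.rob a
    obtain ⟨e', he'⟩ := numV_ex h.rob b
    obtain ⟨h1, h2⟩ := h.k1 y e e' s F (v a) (v b) (p2_std h he he' hy) hcl
      (hv a e (Or.inl rfl) he) (hv b e' (Or.inr rfl) he')
    obtain ⟨-, -, h3⟩ := hx K F hn hdp
    rw [(h3 c hc).1 h1, h2]
    exact Iff.rfl
  | zero a =>
    intro y s F K c v hy hcl hdp hn hc hv
    obtain ⟨e, he⟩ := numV_ex h.rob a
    obtain ⟨h1, h2⟩ := h.k2 y e s F (v a) (p1_std h he hy) hcl (hv a e rfl he)
    obtain ⟨-, -, h3⟩ := hx K F hn hdp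
    rw [(h3 c hc).1 h1, h2]
    exact Iff.rfl
  | succ a b =>
    intro y s F K c v hy hcl hdp hn hc hv
    obtain ⟨e, he⟩ := numV_ex h.rob a
    obtain ⟨e', he'⟩ := numV_ex h.rob b
    obtain ⟨h1, h2⟩ := h.k3 y e e' s F (v a) (v b) (p2_std h he he' hy) hcl
      (hv a e (Or.inl rfl) he) (hv b e' (Or.inr rfl) he')
    obtain ⟨-, -, h3⟩ := hx K F hn hdp
    rw [(h3 c hc).1 h1, h2]
    exact Iff.rfl
  | add a b d =>
    intro y s F K c v hy hcl hdp hn hc hv
    obtain ⟨e, he⟩ := numV_ex h.rob a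
    obtain ⟨e', he'⟩ := numV_ex h.rob b
    obtain ⟨e'', he''⟩ := numV_ex h.rob d
    obtain ⟨h1, h2⟩ := h.k4 y e e' e'' s F (v a) (v b) (v d) (p3_std h he he' he'' hy) hcl
      (hv a e (Or.inl rfl) he) (hv b e' (Or.inr (Or.inl rfl)) he')
      (hv d e'' (Or.inr (Or.inr rfl)) he'')
    obtain ⟨-, -, h3⟩ := hx K F hn hdp
    rw [(h3 c hc).1 h1, h2]
    exact Iff.rfl
  | mul a b d =>
    intro y s F K c v hy hcl hdp hn hc hv
    obtain ⟨e, he⟩ := numV_ex h.rob a
    obtain ⟨e', he'⟩ := numV_ex h.rob b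
    obtain ⟨e'', he''⟩ := numV_ex h.rob d
    obtain ⟨h1, h2⟩ := h.k5 y e e' e'' s F (v a) (v b) (v d) (p3_std h he he' he'' hy) hcl
      (hv a e (Or.inl rfl) he) (hv b e' (Or.inr (Or.inl rfl)) he')
      (hv d e'' (Or.inr (Or.inr rfl)) he'')
    obtain ⟨-, -, h3⟩ := hx K F hn hdp
    rw [(h3 c hc).1 h1, h2]
    exact Iff.rfl
  | imp φ ψ ih1 ih2 =>
    intro y s F K c v hy hcl hdp hn hc hv
    obtain ⟨y1, hy1⟩ := strV_ex h.rob φ.str
    obtain ⟨y2, hy2⟩ := strV_ex h.rob ψ.str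
    obtain ⟨G, H, hG, hH, him⟩ := h.k6 y y1 y2 s F (pi_std h hy1 hy2 hy) hcl
    obtain ⟨k, hk⟩ := h.rob.pred K fun hz => h.d0 K F hz hdp
    obtain ⟨hdG, hdH⟩ := h.d4 k K F G H hk hdp him
    obtain ⟨-, -, h3⟩ := hx K F hn hdp
    rw [(h3 c hc).2.1 G H him,
      ih1 hy1 hG (h.d6 k K G hk hdG) hn hc (fun i e hi he => hv i e (Or.inl hi) he),
      ih2 hy2 hH (h.d6 k K H hk hdH) hn hc (fun i e hi he => hv i e (Or.inr hi) he)]
    exact Iff.rfl
  | all u φ ih =>
    intro y s F K c v hy hcl hdp hn hc hv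
    obtain ⟨e, he⟩ := numV_ex h.rob u
    obtain ⟨y1, hy1⟩ := strV_ex h.rob φ.str
    obtain ⟨G, hal, hG⟩ := h.k7 y e y1 s F (pa_std h he hy1 hy) hcl
    obtain ⟨k, hk⟩ := h.rob.pred K fun hz => h.d0 K F hz hdp
    obtain ⟨-, -, h3⟩ := hx K F hn hdp
    have key : ∀ a H, S.r3 .ins G a H → (x H c ↔ Sat S (emb φ) (upd v u a)) := by
      intro a H hins
      obtain ⟨s', hs1, hs2, hs3⟩ := hG a H hins
      refine ih hy1 hs3 (h.d6 k K H hk (h.d5 k K F G a H hk hdp hal hins)) hn hc ?_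
      intro i e' hi he'
      by_cases hiu : i = u
      · subst hiu
        cases numV_un h.rob he he'
        rw [upd_same]
        exact hs1
      · rw [upd_ne _ _ hiu]
        refine hs2 e' _ ?_ (hv i e' ⟨hiu, hi⟩ he')
        intro hee
        rw [hee] at he'
        exact hiu (numV_inj h.rob he' he)
    rw [(h3 c hc).2.2 G hal]
    constructor
    · intro hall a
      obtain ⟨H, hins⟩ := h.d7 F G a hal
      exact (key a H hins).1 (hall a H hins)
    · intro hall a H hins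
      exact (key a H hins).2 (hall a)

end md

/-! ### strings of instances -/

theorem num_append' (u w : List Bool) :
    num (u ++ w) = w.foldl (fun n b => 2 * n + if b then 2 else 1) (num u) := by
  simp [num, List.foldl_append]

theorem digits_num' (w : List Bool) : digits (num w) = w := by
  induction w using List.reverseRecOn with
  | nil =>
    have : num [] = 0 := rfl
    rw [this, digits]
    simp
  | append_singleton w b ih =>
    rw [num_append']
    have e : List.foldl (fun n b => 2 * n + if b then 2 else 1) (num w) [b] =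
        2 * num w + if b then 2 else 1 := rfl
    rw [e, digits]
    cases b
    · simp [ih]
    · have h1 : (2 * num w + 1) / 2 = num w := by omega
      simp [h1, ih]

theorem digit_str (x : ℕ) (b : Bool) (φ : Form) : (digit x b φ).str = tmpl x b ++ φ.str := by
  have key : ∀ (p : List Bool), (p ++ [false, false, false]).dropLast.dropLast.dropLast = p := by
    intro p
    have e1 : p ++ [false, false, false] = (p ++ [false, false]) ++ [false] := by simp
    have e2 : p ++ [false, false] = (p ++ [false]) ++ [false] := by simp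
    rw [e1, List.dropLast_concat, e2, List.dropLast_concat, List.dropLast_concat]
  cases b
  · have e : ∀ ψ : Form, (digit x false ψ).str = ([true, true, true] ++ varStr 0 ++
        [true, true, false] ++ (Form.add x x 0).str ++ [true, true, true] ++ varStr x ++
        [true, true, false] ++ (Form.succ 0 x).str) ++ ψ.str := by
      intro ψ
      simp [digit, Form.str, List.append_assoc]
    unfold tmpl
    rw [e Form.bot, e φ]
    show _ = (_ ++ [false, false, false]).dropLast.dropLast.dropLast ++ φ.str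
    rw [key]
  · have e : ∀ ψ : Form, (digit x true ψ).str = ([true, true, true] ++ varStr 0 ++
        [true, true, false] ++ (Form.add x x 0).str ++ [true, true, true] ++ varStr 1 ++
        [true, true, false] ++ (Form.succ 0 1).str ++ [true, true, true] ++ varStr x ++
        [true, true, false] ++ (Form.succ 1 x).str) ++ ψ.str := by
      intro ψ
      simp [digit, Form.str, List.append_assoc]
    unfold tmpl
    rw [e Form.bot, e φ]
    show _ = (_ ++ [false, false, false]).dropLast.dropLast.dropLast ++ φ.str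
    rw [key]

theorem foldr_str (x : ℕ) (φ : Form) : ∀ σ : List Bool,
    (σ.foldr (digit x) φ).str = σ.flatMap (tmpl x) ++ φ.str
  | [] => by simp
  | b :: σ => by
    rw [List.foldr_cons, digit_str, foldr_str x φ σ, List.flatMap_cons, List.append_assoc]

theorem inst_str (x n : ℕ) (φ : Form) :
    (inst x n φ).str = hd x ++ (digits n).flatMap (tmpl x) ++ φ.str := by
  simp only [inst, Form.str, foldr_str, hd, List.append_assoc]

theorem tm_gen {P : Form} {S : Str Sy} (h : Mod P S) (i : Sy × ℕ)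
    (hi : i ∈ [(Sy.tm2, 2), (Sy.tm3, 3), (Sy.tm4, 4)]) (σ : List Bool) : ∀ {w n w' : S.M},
    StrV S σ n → AppL S (hd i.2 ++ σ.flatMap (tmpl i.2)) w w' → S.r3 i.1 w n w' := by
  induction σ using List.reverseRecOn with
  | nil =>
    intro w n w' hn hw
    rw [List.flatMap_nil, List.append_nil] at hw
    exact h.t1 i hi w n w' (strV_nil.1 hn) hw
  | append_singleton σ b ih =>
    intro w n w' hn hw
    obtain ⟨m, hm, hb⟩ := strV_snoc.1 hn
    rw [List.flatMap_append, ← List.append_assoc] at hw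
    obtain ⟨w1, hw1, hw2⟩ := appL_append.1 hw
    have e : List.flatMap (tmpl i.2) [b] = tmpl i.2 b := by simp
    rw [e] at hw2
    exact h.t2 i hi b w m w1 n w' (ih hm hw1) hb hw2

end J199

open J199

/-- codes of lists of formulas are recognized -/
theorem lc_std {P : Form} {S : Str Sy} (h : Mod P S) (A : List Form) {a : S.M}
    (ha : StrV S (strs A) a) : S.r1 .lc a := lc_std' h A ha

/-- the axioms are true -/
theorem semA_of {P : Form} {S : Str Sy} (h : Mod P S) (A : List Form) (hA : ∀ φ ∈ A, φ.Closed)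
    (hS : ∀ φ ∈ A, ∀ v : ℕ → S.M, Sat S (emb φ) v) {n : S.M → Prop} {x : S.M → S.M → Prop}
    (hx : SemX S n x) : SemA S A n x := by
  intro a y s F K c ha hn hm hcl hdp hc
  obtain ⟨φ, hφ, hy⟩ := mem_lc h A ha hm
  obtain ⟨v⟩ : Nonempty (ℕ → S.M) := ⟨fun _ => Classical.choice S.ne⟩
  rw [tscheme h hx φ (v := v) hy hcl hdp hn hc (fun i _ hi => absurd hi (hA φ hφ i))]
  exact hS φ hφ v

/-- the rest of the string of an instance is computed -/
theorem tm_std {P : Form} {S : Str Sy} (h : Mod P S) (A : List Form) {a w1 z : S.M}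
    (ha : StrV S (strs A) a) (hz : AppL S (con P A).str w1 z) :
    ∃ w2 y w3, S.r3 .tm2 w1 a w2 ∧ StrV S [false, false, false] y ∧ S.r3 .tm4 w2 y w3 ∧
      AppL S P.neg.str w3 z := by
  have e : (con P A).str = (hd 2 ++ (strs A).flatMap (tmpl 2)) ++
      ((hd 4 ++ [false, false, false].flatMap (tmpl 4)) ++ P.neg.str) := by
    have e1 : digits (code A) = strs A := digits_num' _
    have e2 : digits (code [Form.bot]) = [false, false, false] := digits_num' _
    rw [con, inst_str, inst_str, e1, e2]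
  rw [e] at hz
  obtain ⟨w2, hw2, hz⟩ := appL_append.1 hz
  obtain ⟨w3, hw3, hz⟩ := appL_append.1 hz
  obtain ⟨y, hy⟩ := strV_ex h.rob [false, false, false]
  exact ⟨w2, y, w3, tm_gen h (.tm2, 2) (by simp) _ ha hw2, hy,
    tm_gen h (.tm4, 4) (by simp) _ hy hw3, hz⟩

end Pool.Agent.TH672
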