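import Mathlib

/-!
# Non-planarity of `K₅` for arbitrary continuous drawings

If the ten edges of `K₅` are drawn in the plane by continuous paths, then two of the paths which
belong to disjoint edges meet.  The proof is the van Kampen obstruction computed with continuous
branches of the logarithm on the squares `e × g`.
-/

set_option autoImplicit false

namespace Pool.Agent.TH545

open Complex

theorem exists_log1 (g : ℝ → ℂ) (hg : Continuous g) (h0 : ∀ t, g t ≠ 0) :
    ∃ L : ℝ → ℂ, Continuous L ∧ ∀ t, exp (L t) = g t := by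
  obtain ⟨f, hf, hfe⟩ := Complex.exists_continuousOn_eqOn_exp_comp (X := ℝ) (U := Set.univ)
    (by
      have : ContractibleSpace (Set.univ : Set ℝ) :=
        (convex_univ (𝕜 := ℝ)).contractibleSpace Set.univ_nonempty
      exact (inferInstance : SimplyConnectedSpace (Set.univ : Set ℝ))) isOpen_univ hg.continuousOn
    (by rintro ⟨t, -, ht⟩; exact h0 t ht)
  exact ⟨f, continuousOn_univ.mp hf, fun t => hfe (Set.mem_univ t)⟩

theorem exists_log2 (g : ℝ × ℝ → ℂ) (hg : Continuous g) (h0 : ∀ t, g t ≠ 0) :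
    ∃ L : ℝ × ℝ → ℂ, Continuous L ∧ ∀ t, exp (L t) = g t := by
  obtain ⟨f, hf, hfe⟩ := Complex.exists_continuousOn_eqOn_exp_comp (X := ℝ × ℝ) (U := Set.univ)
    (by
      have : ContractibleSpace (Set.univ : Set (ℝ × ℝ)) :=
        (convex_univ (𝕜 := ℝ)).contractibleSpace Set.univ_nonempty
      exact (inferInstance : SimplyConnectedSpace (Set.univ : Set (ℝ × ℝ)))) isOpen_univ hg.continuousOn
    (by rintro ⟨t, -, ht⟩; exact h0 t ht)
  exact ⟨f, continuousOn_univ.mp hf, fun t => hfe (Set.mem_univ t)⟩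

theorem log_unique {L L' : ℝ → ℂ} (hL : Continuous L) (hL' : Continuous L')
    (h : ∀ t, exp (L t) = exp (L' t)) : L 1 - L 0 = L' 1 - L' 0 := by
  have h1 : ∀ t, ∃ n : ℤ, L t = L' t + n * (2 * Real.pi * I) := fun t =>
    Complex.exp_eq_exp_iff_exists_int.mp (h t)
  choose n hn using h1
  have hc : Continuous (fun t => ((n t : ℤ) : ℝ)) := by
    have : (fun t => ((n t : ℤ) : ℝ)) = fun t => ((L t - L' t) / (2 * Real.pi * I)).re := by
      funext t
      have hne : (2 * Real.pi * I : ℂ) ≠ 0 := Complex.two_pi_I_ne_zero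
      have : (L t - L' t) / (2 * Real.pi * I) = ((n t : ℤ) : ℂ) := by
        rw [hn t, add_sub_cancel_left, mul_div_assoc, div_self hne, mul_one]
      rw [this]
      simp
    rw [this]
    exact Complex.continuous_re.comp ((hL.sub hL').div_const _)
  have hc' : Continuous n := (Int.isClosedEmbedding_coe_real.isEmbedding).continuous_iff.mpr hc
  have : n 1 = n 0 := PreconnectedSpace.constant inferInstance hc'
  rw [hn 1, hn 0, this]
  ring

open Classical in
/-- The total change of a continuous branch of the logarithm along `g`. -/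
noncomputable def dlog (g : ℝ → ℂ) : ℂ :=
  if h : ∃ L : ℝ → ℂ, Continuous L ∧ ∀ t, exp (L t) = g t then h.choose 1 - h.choose 0 else 0

theorem dlog_eq {g L : ℝ → ℂ} (hL : Continuous L) (h : ∀ t, exp (L t) = g t) :
    dlog g = L 1 - L 0 := by
  have hex : ∃ L : ℝ → ℂ, Continuous L ∧ ∀ t, exp (L t) = g t := ⟨L, hL, h⟩
  rw [dlog, dif_pos hex]
  exact log_unique hex.choose_spec.1 hL (fun t => by rw [hex.choose_spec.2 t, h t])

theorem dlog_eq_neg {g L : ℝ → ℂ} (hL : Continuous L) (h : ∀ t, exp (L t) = -g t) :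
    dlog g = L 1 - L 0 := by
  have := dlog_eq (g := g) (L := fun t => L t + Real.pi * I) (by fun_prop)
    (fun t => by rw [Complex.exp_add, h t, Complex.exp_pi_mul_I]; ring)
  rw [this]; ring

/-- The square relation. -/
theorem dlog_square {e g : ℝ → ℂ} (he : Continuous e) (hg : Continuous g)
    (hd : ∀ s t, e s ≠ g t) :
    dlog (fun t => g t - e 0) + dlog (fun s => e s - g 1)
      = dlog (fun t => g t - e 1) + dlog (fun s => e s - g 0) := by
  obtain ⟨L, hL, hLe⟩ := exists_log2 (fun p => g p.2 - e p.1) (by fun_prop)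
    (fun p h => hd p.1 p.2 (sub_eq_zero.mp h).symm)
  rw [dlog_eq (g := fun t => g t - e 0) (L := fun t => L (0, t)) (by fun_prop)
      (fun t => hLe (0, t)),
    dlog_eq (g := fun t => g t - e 1) (L := fun t => L (1, t)) (by fun_prop)
      (fun t => hLe (1, t)),
    dlog_eq_neg (g := fun s => e s - g 1) (L := fun s => L (s, 1)) (by fun_prop)
      (fun s => by rw [hLe (s, 1)]; ring),
    dlog_eq_neg (g := fun s => e s - g 0) (L := fun s => L (s, 0)) (by fun_prop)
      (fun s => by rw [hLe (s, 0)]; ring)]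
  ring

theorem exp_dlog {g : ℝ → ℂ} (hg : Continuous g) (h0 : ∀ t, g t ≠ 0) :
    exp (dlog g) = g 1 / g 0 := by
  obtain ⟨L, hL, hLe⟩ := exists_log1 g hg h0
  rw [dlog_eq hL hLe, Complex.exp_sub, hLe, hLe]

/-- A chosen logarithm of `P k - P i`. -/
noncomputable def ell (P : Fin 5 → ℂ) (i k : Fin 5) : ℂ :=
  if i < k then log (P k - P i) else log (P i - P k) + Real.pi * I

theorem exp_ell {P : Fin 5 → ℂ} {i k : Fin 5} (h : P i ≠ P k) :
    exp (ell P i k) = P k - P i := by
  unfold ell
  split_ifs with hik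
  · exact Complex.exp_log (sub_ne_zero.mpr h.symm)
  · rw [Complex.exp_add, Complex.exp_log (sub_ne_zero.mpr h), Complex.exp_pi_mul_I]; ring

theorem ell_symm (P : Fin 5 → ℂ) {i k : Fin 5} (h : i < k) :
    ell P k i = ell P i k + Real.pi * I := by
  unfold ell
  rw [if_pos h, if_neg (not_lt.mpr h.le)]

/-- `K₅` has no drawing in the plane in which the paths of disjoint edges are disjoint. -/
theorem k5_nonplanar (γ : Fin 5 → Fin 5 → ℝ → ℂ) (P : Fin 5 → ℂ)
    (hc : ∀ i j, i < j → Continuous (γ i j))
    (h0 : ∀ i j, i < j → γ i j 0 = P i) (h1 : ∀ i j, i < j → γ i j 1 = P j)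
    (hd : ∀ i j k l, i < j → k < l → i ≠ k → i ≠ l → j ≠ k → j ≠ l →
      ∀ s t, γ i j s ≠ γ k l t) : False := by
  -- distinctness of the vertices
  have hv : ∀ i k : Fin 5, i < k → P i ≠ P k := by
    intro i k hik
    have : ∃ j l : Fin 5, (i < j ∧ k < l ∧ i ≠ k ∧ i ≠ l ∧ j ≠ k ∧ j ≠ l) ∨
        (i < j ∧ l < k ∧ i ≠ l ∧ i ≠ k ∧ j ≠ l ∧ j ≠ k) ∨
        (j < i ∧ k < l ∧ j ≠ k ∧ j ≠ l ∧ i ≠ k ∧ i ≠ l) ∨
        (j < i ∧ l < k ∧ j ≠ l ∧ j ≠ k ∧ i ≠ l ∧ i ≠ k) := by
      revert i k; decide
    obtain ⟨j, l, h | h | h | h⟩ := this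
    · obtain ⟨a, b, c, d, e, f⟩ := h
      have := hd i j k l a b c d e f 0 0
      rwa [h0 i j a, h0 k l b] at this
    · obtain ⟨a, b, c, d, e, f⟩ := h
      have := hd i j l k a b c d e f 0 1
      rwa [h0 i j a, h1 l k b] at this
    · obtain ⟨a, b, c, d, e, f⟩ := h
      have := hd j i k l a b c d e f 1 0
      rwa [h1 j i a, h0 k l b] at this
    · obtain ⟨a, b, c, d, e, f⟩ := h
      have := hd j i l k a b c d e f 1 1
      rwa [h1 j i a, h1 l k b] at this
  have hv' : ∀ i k : Fin 5, i ≠ k → P i ≠ P k := by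
    intro i k hik
    rcases lt_or_gt_of_ne hik with h | h
    · exact hv i k h
    · exact (hv k i h).symm
  -- the paths avoid the other vertices
  have hav : ∀ i k l : Fin 5, k < l → i ≠ k → i ≠ l → ∀ t, γ k l t - P i ≠ 0 := by
    intro i k l hkl hik hil t
    have : ∃ j : Fin 5, (i < j ∧ j ≠ k ∧ j ≠ l) ∨ (j < i ∧ j ≠ k ∧ j ≠ l) := by
      revert i k l; decide
    obtain ⟨j, ⟨a, b, c⟩ | ⟨a, b, c⟩⟩ := this
    · have := hd i j k l a hkl hik hil b c 0 t
      rw [h0 i j a] at this
      exact sub_ne_zero.mpr this.symm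
    · have := hd j i k l a hkl b c hik hil 1 t
      rw [h1 j i a] at this
      exact sub_ne_zero.mpr this.symm
  set Θ : Fin 5 → Fin 5 → Fin 5 → ℂ := fun i k l => dlog (fun t => γ k l t - P i) with hΘ
  have hn : ∀ i k l : Fin 5, ∃ n : ℤ, k < l → i ≠ k → i ≠ l →
      Θ i k l = ell P i l - ell P i k + n * (2 * Real.pi * I) := by
    intro i k l
    by_cases hh : k < l ∧ i ≠ k ∧ i ≠ l
    · obtain ⟨hkl, hik, hil⟩ := hh
      have : exp (Θ i k l) = exp (ell P i l - ell P i k) := by
        have h2 := exp_dlog (g := fun t => γ k l t - P i)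
          ((hc k l hkl).sub continuous_const) (hav i k l hkl hik hil)
        rw [h1 k l hkl, h0 k l hkl] at h2
        rw [Complex.exp_sub, exp_ell (hv' i l hil), exp_ell (hv' i k hik), ← h2]
      obtain ⟨n, hn⟩ := Complex.exp_eq_exp_iff_exists_int.mp this
      exact ⟨n, fun _ _ _ => hn⟩
    · exact ⟨0, fun a b c => absurd ⟨a, b, c⟩ hh⟩
  choose n hn using hn
  have hsq : ∀ i j k l : Fin 5, i < j → k < l → i ≠ k → i ≠ l → j ≠ k → j ≠ l →
      Θ i k l + Θ l i j = Θ j k l + Θ k i j := by
    intro i j k l hij hkl a b c d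
    have := dlog_square (hc i j hij) (hc k l hkl) (hd i j k l hij hkl a b c d)
    rw [h0 i j hij, h1 i j hij, h0 k l hkl, h1 k l hkl] at this
    exact this
  -- integer relation, for `i < k`, in the three relative positions
  have hpi : (2 * Real.pi * I : ℂ) ≠ 0 := Complex.two_pi_I_ne_zero
  have key : ∀ i j k l : Fin 5, i < j → k < l → i < k → j ≠ k → j ≠ l →
      n i k l + n l i j - n j k l - n k i j
        = (if l < j then 1 else 0) - (if k < j then 1 else 0) := by
    intro i j k l hij hkl hik hjk hjl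
    have hil : i < l := hik.trans hkl
    have e := hsq i j k l hij hkl hik.ne hil.ne hjk hjl
    rw [hn i k l hkl hik.ne hil.ne, hn l i j hij hil.ne' hjl.symm,
      hn j k l hkl hjk hjl, hn k i j hij hik.ne' hjk.symm] at e
    rw [ell_symm P hil, ell_symm P hik] at e
    have hcast : ((n i k l + n l i j - n j k l - n k i j : ℤ) : ℂ) * (2 * Real.pi * I)
        = (((if l < j then 1 else 0) - (if k < j then 1 else 0) : ℤ) : ℂ)
          * (2 * Real.pi * I) := by
      push_cast
      rcases lt_or_gt_of_ne hjk with h | h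
      · rw [ell_symm P h, ell_symm P (h.trans hkl)] at e
        rw [if_neg (not_lt.mpr (h.trans hkl).le), if_neg (not_lt.mpr h.le)]
        linear_combination e
      · rcases lt_or_gt_of_ne hjl with h' | h'
        · rw [ell_symm P h, ell_symm P h'] at e
          rw [if_neg (not_lt.mpr h'.le), if_pos h]
          linear_combination e
        · rw [ell_symm P h, ell_symm P h'] at e
          rw [if_pos h', if_pos h]
          linear_combination e
    exact_mod_cast mul_right_cancel₀ hpi hcast
  -- the fifteen relations of `K₅`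
  have r1 := key 0 1 2 3 (by decide) (by decide) (by decide) (by decide) (by decide)
  have r2 := key 0 1 2 4 (by decide) (by decide) (by decide) (by decide) (by decide)
  have r3 := key 0 1 3 4 (by decide) (by decide) (by decide) (by decide) (by decide)
  have r4 := key 0 2 1 3 (by decide) (by decide) (by decide) (by decide) (by decide)
  have r5 := key 0 2 1 4 (by decide) (by decide) (by decide) (by decide) (by decide)
  have r6 := key 0 2 3 4 (by decide) (by decide) (by decide) (by decide) (by decide)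
  have r7 := key 0 3 1 2 (by decide) (by decide) (by decide) (by decide) (by decide)
  have r8 := key 0 3 1 4 (by decide) (by decide) (by decide) (by decide) (by decide)
  have r9 := key 0 3 2 4 (by decide) (by decide) (by decide) (by decide) (by decide)
  have r10 := key 0 4 1 2 (by decide) (by decide) (by decide) (by decide) (by decide)
  have r11 := key 0 4 1 3 (by decide) (by decide) (by decide) (by decide) (by decide)
  have r12 := key 0 4 2 3 (by decide) (by decide) (by decide) (by decide) (by decide)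
  have r13 := key 1 2 3 4 (by decide) (by decide) (by decide) (by decide) (by decide)
  have r14 := key 1 3 2 4 (by decide) (by decide) (by decide) (by decide) (by decide)
  have r15 := key 1 4 2 3 (by decide) (by decide) (by decide) (by decide) (by decide)
  simp only [show ¬ ((3:Fin 5) < 1) by decide, show ¬ ((2:Fin 5) < 1) by decide,
    show ¬ ((4:Fin 5) < 1) by decide, show ¬ ((3:Fin 5) < 2) by decide,
    show ¬ ((4:Fin 5) < 2) by decide, show ((1:Fin 5) < 2) by decide,
    show ((1:Fin 5) < 3) by decide, show ((2:Fin 5) < 3) by decide,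
    show ((1:Fin 5) < 4) by decide, show ((2:Fin 5) < 4) by decide,
    show ((3:Fin 5) < 4) by decide, show ¬ ((4:Fin 5) < 3) by decide,
    if_true, if_false] at r1 r2 r3 r4 r5 r6 r7 r8 r9 r10 r11 r12 r13 r14 r15
  omega

end Pool.Agent.TH545
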